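import Pool.Agent.Lib.MP_1df68a_gt.PG.Ib67

/-!
# A: asymptotic dimension of the pieces
-/

namespace Pool.Agent.Lib.MP_1df68a_gt.PG

open Relation Finset

variable {Γ Z : Type} [Group Γ] [MulAction Γ Z] {e : Z → Z → ℕ} {X : Set Z} {U : Finset Z}
  {R A k : ℕ}

/-- the bound for the probability at `y` -/
noncomputable def Geo.pr (h : Geo Γ Z e X U R A k) (K s M : ℕ) (y : Z) : ℝ :=
  1 - ((h.B (K - s) y).card : ℝ) / (h.B (K + s) y).card + ((h.B (K + s) y).card : ℝ) ^ 2 / M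

theorem Geo.B_mono (h : Geo Γ Z e X U R A k) {n m : ℕ} (hnm : n ≤ m) (y : Z) :
    h.B n y ⊆ h.B m y := by
  intro z hz
  rw [h.mem_B] at hz ⊢
  exact ib_mono hnm y hz

theorem Geo.B_pos (h : Geo Γ Z e X U R A k) (n : ℕ) (y : Z) : 1 ≤ (h.B n y).card :=
  card_pos.2 ⟨y, h.mem_B.2 (self_mem_ib n y)⟩

theorem Geo.B_growth (h : Geo Γ Z e X U R A k) {y : Z} (hy : y ∈ X) (n : ℕ) :
    (h.B n y).card ≤ A * (n + 1) ^ k := by
  rw [h.card_B]
  exact h.growth y hy n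

theorem Geo.pr_nonneg (h : Geo Γ Z e X U R A k) (K s M : ℕ) (y : Z) : 0 ≤ h.pr K s M y := by
  unfold Geo.pr
  have h1 : ((h.B (K - s) y).card : ℝ) / (h.B (K + s) y).card ≤ 1 := by
    apply div_le_one_of_le₀
    · exact_mod_cast card_le_card (h.B_mono (by omega) y)
    · positivity
  have h2 : 0 ≤ ((h.B (K + s) y).card : ℝ) ^ 2 / M := by positivity
  linarith

/-- the good radius -/
theorem Geo.radius (h : Geo Γ Z e X U R A k) (hM2 : StM2) (s : ℕ) (Q : ℝ) :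
    ∃ K M : ℕ, ∃ δ : ℝ, s ≤ K ∧ 0 < M ∧ 0 ≤ δ ∧ (∀ y ∈ X, h.pr K s M y ≤ δ) ∧
      Q * δ ^ (2 * k + 1) * (2 * ((K : ℝ) + s) + 1) ^ k ≤ 1 := by
  obtain ⟨K, M, δ, h1, h2, h3, h4, h5⟩ := hM2 k A s Q U (fun u n => (h.B n u.1).card)
    (fun u n m hnm => card_le_card (h.B_mono hnm u.1)) (fun u n => h.B_pos n u.1)
    (fun u n => h.B_growth (h.UX u.1 u.2) n)
  refine ⟨K, M, δ, h1, h2, h3, ?_, h5⟩
  intro y hy
  obtain ⟨c, u, hu, rfl⟩ := h.cov y hy
  have h6 := h4 ⟨u, hu⟩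
  have e1 : ∀ n, (h.B n (c • u)).card = (h.B n u).card := by
    intro n
    rw [h.card_B, h.card_B, h.ib_card_act c]
  unfold Geo.pr
  rw [e1, e1]
  exact h6

theorem num_67 {A d q : ℕ} {p x Q : ℝ} (hp : 0 ≤ p) (hx : 1 ≤ x) (hd : (d : ℝ) = A * x)
    (hQ : Q = 4 * (q : ℝ) * A + 4 * q) (hq : 1 ≤ q) (h : Q * p * x ≤ 1) :
    4 * (q * p) * d ≤ 1 ∧ 2 * (q * p) < 1 := by
  have hA : (0 : ℝ) ≤ A := by positivity
  have hq' : (1 : ℝ) ≤ q := by exact_mod_cast hq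
  have hx0 : 0 ≤ x := by linarith
  have h0 : 0 ≤ (q : ℝ) * p := by positivity
  have h1 : Q * p * x = 4 * (q * p) * (A * x) + 4 * (q * p) * x := by rw [hQ]; ring
  have h2 : 0 ≤ 4 * (q * p) * (A * x) := by positivity
  have h3 : 0 ≤ 4 * (q * p) * x := by positivity
  have h4 : 4 * (q * p) ≤ 4 * (q * p) * x := le_mul_of_one_le_right (by positivity) hx
  rw [hd]
  constructor <;> linarith

theorem stA_67 (hM1 : StM1) (hM2 : StM2) (hM3 : StM3) (hM4b : StM4b) : StA := by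
  classical
  intro Γ Z _ _ e X U R A k h ρ
  obtain ⟨s, hs⟩ := h.exists_s ρ
  obtain ⟨K, M, δ, hsK, hM, hδ, hpr, hQ⟩ := h.radius hM2 s (4 * ((1 : ℕ) : ℝ) * A + 4 * (1 : ℕ))
  -- the events
  set T : Z → Fin (2 * k + 1) → Finset (Z × Fin (2 * k + 1)) := fun y i => h.B (K + s) y ×ˢ {i}
    with hT
  set E : Z → Fin (2 * k + 1) → Set (Z × Fin (2 * k + 1) → Fin M) := fun y i =>
    {l | ¬ ∃ z ∈ h.B (K - s) y ×ˢ ({i} : Finset (Fin (2 * k + 1))), ∀ z' ∈ T y i, z' ≠ z →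
      l z' < l z} with hE
  have hPB1 : ∀ y i, PB M (E y i) (T y i) (h.pr K s M y) := by
    intro y i
    have h1 := hM1 (Z × Fin (2 * k + 1)) M (h.B (K - s) y ×ˢ {i}) (T y i) hM
      (product_subset_product (h.B_mono (by omega) y) (Subset.refl _))
      ⟨(y, i), by rw [hT, mem_product]; exact ⟨h.mem_B.2 (self_mem_ib _ _), mem_singleton_self i⟩⟩
    have e1 : (T y i).card = (h.B (K + s) y).card := by
      rw [hT, card_product, card_singleton, mul_one]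
    have e2 : (h.B (K - s) y ×ˢ ({i} : Finset (Fin (2 * k + 1)))).card = (h.B (K - s) y).card := by
      rw [card_product, card_singleton, mul_one]
    rw [e1, e2] at h1
    exact h1
  have hPB2 : ∀ y, PB M {l | ∀ i ∈ (univ : Finset (Fin (2 * k + 1))), l ∈ E y i}
      (univ.biUnion (T y)) (h.pr K s M y ^ (2 * k + 1)) := by
    intro y
    have h1 := hM4b (Z × Fin (2 * k + 1)) (Fin (2 * k + 1)) M univ (E y) (T y)
      (fun _ => h.pr K s M y) hM (fun _ _ => h.pr_nonneg K s M y) (fun i _ => hPB1 y i) (by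
        intro i _ j _ hij
        rw [hT, disjoint_left]
        intro z hz hz'
        rw [mem_product, mem_singleton] at hz hz'
        exact hij (hz.2.symm.trans hz'.2))
    rw [prod_const, card_univ, Fintype.card_fin] at h1
    exact h1
  have hx1 : (1 : ℝ) ≤ (2 * ((K : ℝ) + s) + 1) ^ k := one_le_pow₀ (by
    have : (0 : ℝ) ≤ (K : ℝ) + s := by positivity
    linarith)
  obtain ⟨n1, n2⟩ := num_67 (A := A) (d := A * (2 * (K + s) + 1) ^ k) (q := 1)
    (p := δ ^ (2 * k + 1)) (pow_nonneg hδ _) hx1 (by push_cast; ring) rfl le_rfl hQ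
  rw [Nat.cast_one, one_mul] at n1 n2
  obtain ⟨l, hl⟩ := hM3 (Z × Fin (2 * k + 1)) X M
    (fun y => {l | ∀ i ∈ (univ : Finset (Fin (2 * k + 1))), l ∈ E y.1 i})
    (fun y => univ.biUnion (T y.1)) (δ ^ (2 * k + 1)) (A * (2 * (K + s) + 1) ^ k) hM
    (pow_nonneg hδ _)
    (fun y => (hPB2 y.1).mono_67 (Subset.refl _)
      (pow_le_pow_left₀ (h.pr_nonneg K s M y.1) (hpr y.1 y.2) _))
    (by
      intro y
      have hsub : Subtype.val '' {y' : X | ¬ Disjoint (univ.biUnion (T y.1))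
          (univ.biUnion (T y'.1))} ⊆ ib e X R (2 * (K + s)) y.1 := by
        rintro _ ⟨y', hy', rfl⟩
        have h1 : ¬ Disjoint (univ.biUnion (T y.1)) (univ.biUnion (T y'.1)) := hy'
        rw [not_disjoint_iff] at h1
        obtain ⟨z, hz1, hz2⟩ := h1
        obtain ⟨i, -, hi⟩ := mem_biUnion.1 hz1
        obtain ⟨j, -, hj⟩ := mem_biUnion.1 hz2
        rw [hT, mem_product, h.mem_B] at hi hj
        have h2 := ib_add hi.1 (ib_symm h.pm hj.1)
        rwa [← two_mul] at h2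
      have hfin := (h.ib_fin (2 * (K + s)) y.1).subset hsub
      refine ⟨hfin.of_finite_image Subtype.val_injective.injOn, ?_⟩
      rw [← Set.ncard_image_of_injective _ Subtype.val_injective]
      exact (Set.ncard_le_ncard hsub (h.ib_fin _ _)).trans (h.growth y.1 y.2 _))
    n1 n2
  -- the colours and the maxima
  have hch : ∀ y : X, ∃ i : Fin (2 * k + 1), ∃ z ∈ ib e X R (K - s) y.1,
      ∀ w ∈ ib e X R (K + s) y.1, w ≠ z → l (w, i) < l (z, i) := by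
    intro y
    have h1 := hl y
    simp only [Set.mem_ofPred_eq, mem_univ, true_implies, not_forall] at h1
    obtain ⟨i, hi⟩ := h1
    rw [hE, Set.mem_ofPred_eq, not_not] at hi
    obtain ⟨⟨z, i'⟩, hz, hz1⟩ := hi
    rw [mem_product, mem_singleton, h.mem_B] at hz
    obtain ⟨hz2, rfl⟩ := hz
    refine ⟨i', z, hz2, fun w hw hne => hz1 (w, i') ?_ ?_⟩
    · rw [hT, mem_product, h.mem_B]
      exact ⟨hw, mem_singleton_self _⟩
    · exact fun h' => hne (congrArg Prod.fst h')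
  choose i z hz hz1 using hch
  refine ⟨2 * K * R, fun x => if hx : x ∈ X then (i ⟨x, hx⟩ : ℕ) else 0, ?_, ?_⟩
  · intro x hx
    simp only [dif_pos hx]
    exact (i ⟨x, hx⟩).2
  · intro j x y hxy
    rcases hxy.cases_head with h0 | ⟨c, ⟨hxX, -, hxj, -⟩, -⟩
    · rw [h0, h.pm.self]
      exact Nat.zero_le _
    have key : ∀ y, ReflTransGen (fun a b => a ∈ X ∧ b ∈ X ∧
        (if hx : a ∈ X then (i ⟨a, hx⟩ : ℕ) else 0) = j ∧
        (if hx : b ∈ X then (i ⟨b, hx⟩ : ℕ) else 0) = j ∧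
        ReflTransGen (Step e X R) a b ∧ e a b ≤ ρ) x y →
        ∃ hy : y ∈ X, (i ⟨y, hy⟩ : ℕ) = j ∧ z ⟨y, hy⟩ = z ⟨x, hxX⟩ := by
      intro y hy
      induction hy with
      | refl =>
        refine ⟨hxX, ?_, rfl⟩
        simpa only [dif_pos hxX] using hxj
      | @tail a b _ hab ih =>
        obtain ⟨ha, hb, hja, hjb, hcon, hle⟩ := hab
        obtain ⟨_, h1, h2⟩ := ih
        rw [dif_pos hb] at hjb
        refine ⟨hb, hjb, ?_⟩
        rw [← h2]
        have hij : i ⟨a, ha⟩ = i ⟨b, hb⟩ := Fin.ext (h1.trans hjb.symm)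
        have h3 := hs a ha b hcon hle
        refine (goodMax_eq (l := fun g => l (g, i ⟨a, ha⟩)) h.pm hsK h3 (hz ⟨a, ha⟩)
          (hz1 ⟨a, ha⟩) (hz ⟨b, hb⟩) ?_).symm
        rw [hij]
        exact hz1 ⟨b, hb⟩
    obtain ⟨hyX, -, hzz⟩ := key y hxy
    have d1 := ib_dist h.pm (hz ⟨x, hxX⟩)
    have d2 := ib_dist h.pm (hz ⟨y, hyX⟩)
    rw [hzz, h.pm.symm] at d2
    have d3 := h.pm.tri x (z ⟨x, hxX⟩) y
    have d4 : (K - s) * R ≤ K * R := Nat.mul_le_mul_right _ (Nat.sub_le _ _)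
    have d5 : 2 * K * R = K * R + K * R := by ring
    simp only at d1 d2
    omega

end Pool.Agent.Lib.MP_1df68a_gt.PG
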