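import Pool.Agent.Lib.MP_1df68a_gt.PG.A_67

/-!
# B: walls of multiplicity `2 k`
-/

namespace Pool.Agent.Lib.MP_1df68a_gt.PG

open Relation Finset

theorem stB_67 (hM1 : StM1) (hM2 : StM2) (hM3 : StM3) (hM4b : StM4b) (hM4c : StM4c) : StB := by
  classical
  intro Γ Z _ _ e X U R A k h L
  set v := h.vol L with hv
  obtain ⟨K, M, δ, hsK, hM, hδ, hpr, hQ⟩ := h.radius hM2 1
    (4 * ((2 ^ v : ℕ) : ℝ) * (A * v * v : ℕ) + 4 * (2 ^ v : ℕ))
  -- balls in `X`
  set Ba : Z → Finset Z := fun x => (h.fin x L).toFinset with hBa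
  have hBac : ∀ x ∈ X, (Ba x).card ≤ v := by
    intro x hx
    rw [hBa, ← Set.ncard_eq_toFinset_card _ (h.fin x L)]
    exact h.ball_le hx L
  have hmB : ∀ x y, y ∈ Ba x ↔ e x y ≤ L := fun x y => Set.Finite.mem_toFinset _
  set bad : Z → Set (Z → Fin M) := fun y =>
    {l | ¬ ∃ z ∈ h.B (K - 1) y, ∀ z' ∈ h.B (K + 1) y, z' ≠ z → l z' < l z} with hbad
  set I : Z → Finset (Finset Z) := fun x => ((Ba x).filter fun y => y ∈ X).powerset.filter fun F =>
    F.card = 2 * k + 1 ∧ ∀ y ∈ F, ∀ z ∈ F, y ≠ z → ¬ ReflTransGen (Step e X R) y z with hI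
  set T : Z → Finset Z := fun x => ((Ba x).filter fun y => y ∈ X).biUnion (h.B (K + 1)) with hT
  have hPB1 : ∀ y, PB M (bad y) (h.B (K + 1) y) (h.pr K 1 M y) := fun y =>
    hM1 Z M (h.B (K - 1) y) (h.B (K + 1) y) hM (h.B_mono (by omega) y)
      ⟨y, h.mem_B.2 (self_mem_ib _ _)⟩
  have hPB2 : ∀ x, ∀ F ∈ I x, PB M {l | ∀ y ∈ F, l ∈ bad y} (T x) (δ ^ (2 * k + 1)) := by
    intro x F hF
    rw [hI, mem_filter, mem_powerset] at hF
    obtain ⟨hFs, hFc, hFd⟩ := hF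
    have h1 := hM4b Z Z M F bad (h.B (K + 1)) (h.pr K 1 M) hM
      (fun y _ => h.pr_nonneg K 1 M y) (fun y _ => hPB1 y) (by
        intro y hy z hz hyz
        rw [disjoint_left]
        intro w hw hw'
        rw [h.mem_B] at hw hw'
        exact hFd y hy z hz hyz ((ib_conn hw).trans (conn_symm h.pm (ib_conn hw'))))
    refine h1.mono_67 (biUnion_subset_biUnion_of_subset_left _ hFs) ?_
    rw [← hFc, ← prod_const]
    exact prod_le_prod (fun y _ => h.pr_nonneg K 1 M y)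
      (fun y hy => hpr y (mem_filter.1 (hFs hy)).2)
  have hIc : ∀ x ∈ X, ((I x).card : ℝ) ≤ ((2 ^ v : ℕ) : ℝ) := by
    intro x hx
    have h1 : (I x).card ≤ 2 ^ v := by
      refine (card_filter_le _ _).trans ?_
      rw [card_powerset]
      exact Nat.pow_le_pow_right (by norm_num) ((card_filter_le _ _).trans (hBac x hx))
    exact_mod_cast h1
  have hPB3 : ∀ x ∈ X, PB M {l | ∃ F ∈ I x, l ∈ {l : Z → Fin M | ∀ y ∈ F, l ∈ bad y}} (T x)
      (((2 ^ v : ℕ) : ℝ) * δ ^ (2 * k + 1)) := by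
    intro x hx
    have h1 := hM4c Z (Finset Z) M (I x) (fun F => {l | ∀ y ∈ F, l ∈ bad y}) (T x)
      (fun _ => δ ^ (2 * k + 1)) (hPB2 x)
    refine h1.mono_67 (Subset.refl _) ?_
    rw [sum_const, nsmul_eq_mul]
    exact mul_le_mul_of_nonneg_right (hIc x hx) (pow_nonneg hδ _)
  have hx1 : (1 : ℝ) ≤ (2 * ((K : ℝ) + (1 : ℕ)) + 1) ^ k := one_le_pow₀ (by
    have : (0 : ℝ) ≤ (K : ℝ) + (1 : ℕ) := by positivity
    linarith)
  obtain ⟨n1, n2⟩ := num_67 (A := A * v * v) (d := v * (A * (2 * (K + 1) + 1) ^ k * v))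
    (q := 2 ^ v) (p := δ ^ (2 * k + 1)) (pow_nonneg hδ _) hx1 (by push_cast; ring) rfl
    Nat.one_le_two_pow hQ
  obtain ⟨l, hl⟩ := hM3 Z X M
    (fun x => {l | ∃ F ∈ I x.1, l ∈ {l : Z → Fin M | ∀ y ∈ F, l ∈ bad y}})
    (fun x => T x.1) (((2 ^ v : ℕ) : ℝ) * δ ^ (2 * k + 1)) (v * (A * (2 * (K + 1) + 1) ^ k * v)) hM
    (mul_nonneg (by positivity) (pow_nonneg hδ _)) (fun x => hPB3 x.1 x.2)
    (by
      intro x
      set Y : Finset Z := ((Ba x.1).filter fun y => y ∈ X).biUnion fun y =>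
        (h.B (2 * (K + 1)) y).biUnion Ba with hY
      have hsub : Subtype.val '' {x' : X | ¬ Disjoint (T x.1) (T x'.1)} ⊆ (Y : Set Z) := by
        rintro _ ⟨x', hx', rfl⟩
        have h1 : ¬ Disjoint (T x.1) (T x'.1) := hx'
        rw [not_disjoint_iff] at h1
        obtain ⟨w, hw1, hw2⟩ := h1
        obtain ⟨y, hy, hyw⟩ := mem_biUnion.1 hw1
        obtain ⟨y', hy', hyw'⟩ := mem_biUnion.1 hw2
        rw [h.mem_B] at hyw hyw'
        have h2 := ib_add hyw (ib_symm h.pm hyw')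
        rw [← two_mul] at h2
        have h3 := (hmB _ _).1 (mem_filter.1 hy').1
        rw [mem_coe, hY]
        refine mem_biUnion.2 ⟨y, hy, mem_biUnion.2 ⟨y', h.mem_B.2 h2, (hmB _ _).2 ?_⟩⟩
        rw [h.pm.symm]
        exact h3
      have hfin := Y.finite_toSet.subset hsub
      refine ⟨hfin.of_finite_image Subtype.val_injective.injOn, ?_⟩
      rw [← Set.ncard_image_of_injective _ Subtype.val_injective]
      refine (Set.ncard_le_ncard hsub Y.finite_toSet).trans ?_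
      rw [Set.ncard_coe_finset, hY]
      refine card_biUnion_le.trans ?_
      have h4 : ∀ y ∈ (Ba x.1).filter (fun y => y ∈ X), ((h.B (2 * (K + 1)) y).biUnion Ba).card ≤
          A * (2 * (K + 1) + 1) ^ k * v := by
        intro y hy
        have hyX := (mem_filter.1 hy).2
        refine card_biUnion_le.trans ((sum_le_sum fun z hz =>
          hBac z (ib_sub hyX (h.mem_B.1 hz))).trans ?_)
        rw [sum_const, smul_eq_mul]
        exact Nat.mul_le_mul_right _ (h.B_growth hyX _)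
      refine (sum_le_sum h4).trans ?_
      rw [sum_const, smul_eq_mul]
      refine Nat.mul_le_mul_right _ ?_
      exact (card_filter_le _ _).trans (hBac x.1 x.2))
    n1 n2
  refine ⟨2 * K * R, {y | y ∈ X ∧ l ∈ bad y}, fun y hy => hy.1, ?_, ?_⟩
  · -- components of the complement
    intro x y hxy
    rcases hxy.cases_head with h0 | ⟨c, ⟨hx, -, -⟩, -⟩
    · rw [h0, h.pm.self]
      exact Nat.zero_le _
    have hgood : ∀ y ∈ X \ {y | y ∈ X ∧ l ∈ bad y}, ∃ z ∈ ib e X R (K - 1) y,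
        ∀ w ∈ ib e X R (K + 1) y, w ≠ z → l w < l z := by
      rintro y ⟨hy, hy'⟩
      have h1 : l ∉ bad y := fun h' => hy' ⟨hy, h'⟩
      rw [hbad, Set.mem_ofPred_eq, not_not] at h1
      obtain ⟨z, hz, hz1⟩ := h1
      exact ⟨z, h.mem_B.1 hz, fun w hw => hz1 w (h.mem_B.2 hw)⟩
    obtain ⟨z, hz, hz1⟩ := hgood x hx
    have key : ∀ y, ReflTransGen (Step e (X \ {y | y ∈ X ∧ l ∈ bad y}) R) x y →
        z ∈ ib e X R (K - 1) y ∧ ∀ w ∈ ib e X R (K + 1) y, w ≠ z → l w < l z := by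
      intro y hy
      induction hy with
      | refl => exact ⟨hz, hz1⟩
      | @tail a b _ hab ih =>
        obtain ⟨z', hz', hz1'⟩ := hgood b hab.2.1
        have h1 : b ∈ ib e X R 1 a := step_ib ⟨hab.1.1, hab.2.1.1, hab.2.2⟩
        rw [goodMax_eq h.pm hsK h1 ih.1 ih.2 hz' hz1']
        exact ⟨hz', hz1'⟩
    have d1 := ib_dist h.pm hz
    have d2 := ib_dist h.pm (key y hxy).1
    rw [h.pm.symm] at d2
    have d3 := h.pm.tri x z y
    have d4 : (K - 1) * R ≤ K * R := Nat.mul_le_mul_right _ (Nat.sub_le _ _)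
    have d5 : 2 * K * R = K * R + K * R := by ring
    omega
  · -- multiplicity
    intro x hx F hF hFd
    by_contra hlt
    obtain ⟨F', hF', hF'c⟩ := exists_subset_card_eq (show 2 * k + 1 ≤ F.card by omega)
    apply hl ⟨x, hx⟩
    refine ⟨F', ?_, fun y hy => (hF y (hF' hy)).1.2⟩
    rw [hI, mem_filter, mem_powerset]
    refine ⟨fun y hy => mem_filter.2 ⟨(hmB _ _).2 (hF y (hF' hy)).2, (hF y (hF' hy)).1.1⟩, hF'c,
      fun y hy z hz => hFd y (hF' hy) z (hF' hz)⟩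

end Pool.Agent.Lib.MP_1df68a_gt.PG
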