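import Pool.Agent.Lib.MP_1df68a_gt.PG.Stmts45

set_option autoImplicit false

/-! Abelian subgroups of bounded local rank have locally polynomial growth. -/

namespace Pool.Agent.Lib.MP_1df68a_gt.PG

open Finset

namespace Cor90

variable {A : Type} [AddCommGroup A]

/-- independence over the integers of a finite set -/
def Indep (B : Finset A) : Prop := ∀ f : A → ℤ, ∑ b ∈ B, f b • b = 0 → ∀ b ∈ B, f b = 0

lemma card_le {k : ℕ} {S B : Finset A} (hBS : B ⊆ S) (hB : Indep B)
    (hdep : ∀ v : Fin (k + 1) → A, (∀ i, v i ∈ S) → ∃ z : Fin (k + 1) → ℤ, z ≠ 0 ∧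
      ∑ i, z i • v i = 0) : B.card ≤ k := by
  classical
  by_contra hlt
  push Not at hlt
  obtain ⟨B', hB', hcard⟩ := Finset.exists_subset_card_eq (show k + 1 ≤ B.card by omega)
  let e : Fin (k + 1) ≃ B' := (Fintype.equivFinOfCardEq (by simpa using hcard)).symm
  obtain ⟨z, hz, hsum⟩ := hdep (fun i => (e i : A)) (fun i => hBS (hB' (e i).2))
  apply hz
  have key := hB (fun b => ∑ i, if (e i : A) = b then z i else 0) (by
    have : ∀ b ∈ B, (∑ i, if (e i : A) = b then z i else 0) • b =
        ∑ i, if (e i : A) = b then z i • (e i : A) else 0 := by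
      intro b _
      rw [Finset.sum_smul]
      refine Finset.sum_congr rfl fun i _ => ?_
      by_cases h : (e i : A) = b
      · simp [h]
      · simp [h]
    rw [Finset.sum_congr rfl this, Finset.sum_comm]
    refine Eq.trans ?_ hsum
    refine Finset.sum_congr rfl fun i _ => ?_
    rw [Finset.sum_ite_eq]
    simp [hB' (e i).2])
  funext i
  have h := key (e i) (hB' (e i).2)
  have h2 : ∀ j, (if (e j : A) = (e i : A) then z j else 0) = if j = i then z j else 0 := by
    intro j
    by_cases hj : j = i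
    · simp [hj]
    · have : (e j : A) ≠ (e i : A) := fun h => hj (e.injective (Subtype.ext h))
      simp [hj, this]
  simp only [h2] at h
  simpa using h

lemma exists_basis (S : Finset A) : ∃ B ⊆ S, Indep B ∧ ∀ s ∈ S, ∃ N : ℕ, 0 < N ∧
    ∃ c : A → ℤ, N • s = ∑ b ∈ B, c b • b := by
  classical
  obtain ⟨B, hB, hmax⟩ := Finset.exists_max_image (S.powerset.filter Indep) Finset.card
    ⟨∅, by simp [Indep]⟩
  simp only [Finset.mem_filter, Finset.mem_powerset] at hB hmax
  refine ⟨B, hB.1, hB.2, fun s hs => ?_⟩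
  by_cases hsB : s ∈ B
  · refine ⟨1, one_pos, fun b => if b = s then 1 else 0, ?_⟩
    have : ∀ b ∈ B, (if b = s then (1 : ℤ) else 0) • b = if b = s then b else 0 := by
      intro b _
      by_cases h : b = s <;> simp [h]
    rw [Finset.sum_congr rfl this, Finset.sum_ite_eq']
    simp [hsB]
  have hnot : ¬ Indep (insert s B) := by
    intro h
    have := hmax (insert s B) ⟨Finset.insert_subset hs hB.1, h⟩
    rw [Finset.card_insert_of_notMem hsB] at this
    omega
  unfold Indep at hnot
  push Not at hnot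
  obtain ⟨f, hf, b, hb, hfb⟩ := hnot
  rw [Finset.sum_insert hsB] at hf
  have hfs : f s ≠ 0 := by
    intro h0
    rw [h0, zero_smul, zero_add] at hf
    rcases Finset.mem_insert.1 hb with rfl | hb
    · exact hfb h0
    · exact hfb (hB.2 f hf b hb)
  refine ⟨(f s).natAbs, Int.natAbs_pos.2 hfs, fun b => -(f s).sign * f b, ?_⟩
  have h1 : f s • s = -∑ b ∈ B, f b • b := eq_neg_of_add_eq_zero_left hf
  have h2 : (f s).natAbs • s = (f s).sign • (f s • s) := by
    rw [smul_smul, ← natCast_zsmul, Int.sign_mul_self_eq_natAbs]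
  rw [h2, h1, smul_neg, Finset.smul_sum, ← Finset.sum_neg_distrib]
  refine Finset.sum_congr rfl fun b _ => ?_
  show _ = (-(f s).sign * f b) • b
  rw [neg_mul, neg_smul, mul_smul]

lemma exists_uniform (S : Finset A) : ∃ B ⊆ S, Indep B ∧ ∃ N : ℕ, 0 < N ∧ ∃ c : A → A → ℤ,
    ∀ s ∈ S, N • s = ∑ b ∈ B, c s b • b := by
  classical
  obtain ⟨B, hBS, hB, h⟩ := exists_basis S
  choose! N hN c hc using h
  refine ⟨B, hBS, hB, ∏ s ∈ S, N s, Finset.prod_pos hN,
    fun s b => ((∏ t ∈ S.erase s, N t : ℕ) : ℤ) * c s b, fun s hs => ?_⟩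
  rw [← Finset.prod_erase_mul S N hs, mul_smul, hc s hs, ← natCast_zsmul, Finset.smul_sum]
  refine Finset.sum_congr rfl fun b _ => ?_
  rw [mul_smul]

lemma core {k : ℕ} (S : Finset A)
    (hdep : ∀ v : Fin (k + 1) → A, (∀ i, v i ∈ S) → ∃ z : Fin (k + 1) → ℤ, z ≠ 0 ∧
      ∑ i, z i • v i = 0) :
    ∃ a : ℕ, ∀ n : ℕ, {x : A | ∃ l : List A, l.length ≤ n ∧ (∀ s ∈ l, s ∈ S) ∧ l.sum = x}.ncard
      ≤ a * (n + 1) ^ k := by
  classical
  obtain ⟨B, hBS, hB, N, hN, c, hc⟩ := exists_uniform S
  have hBk := card_le hBS hB hdep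
  set D : ℕ := ∑ s ∈ S, ∑ b ∈ B, (c s b).natAbs with hD
  refine ⟨N ^ S.card * (2 * D + 1) ^ k, fun n => ?_⟩
  let I : Finset ℤ := Finset.Icc (-((n * D : ℕ) : ℤ)) ((n * D : ℕ) : ℤ)
  have hI : I.card = 2 * (n * D) + 1 := by
    simp only [I, Int.card_Icc]
    omega
  let φ : (S → Fin N) × (B → I) → A := fun p =>
    ∑ s : S, (p.1 s : ℕ) • (s : A) + ∑ b : B, (p.2 b : ℤ) • (b : A)
  have hsub : {x : A | ∃ l : List A, l.length ≤ n ∧ (∀ s ∈ l, s ∈ S) ∧ l.sum = x} ⊆
      (((Finset.univ : Finset ((S → Fin N) × (B → I))).image φ : Finset A) : Set A) := by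
    rintro x ⟨l, hl, hls, rfl⟩
    have hcount : ∑ s ∈ S, l.count s ≤ n := by
      refine le_trans (le_of_eq ?_) hl
      have := Multiset.sum_count_eq_card (s := S) (m := (l : Multiset A)) (by simpa using hls)
      simpa using this
    have hsum : l.sum = ∑ s ∈ S, l.count s • s := by
      have h1 := Finset.sum_list_count l
      rw [h1]
      refine Finset.sum_subset (fun s hs => hls s (by simpa using hs)) ?_
      intro s _ hs
      have : l.count s = 0 := List.count_eq_zero.2 (by simpa using hs)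
      rw [this, zero_smul]
    have hz : ∀ b ∈ B, ∑ s ∈ S, ((l.count s / N : ℕ) : ℤ) * c s b ∈ I := by
      intro b hb
      have habs : |∑ s ∈ S, ((l.count s / N : ℕ) : ℤ) * c s b| ≤ ((n * D : ℕ) : ℤ) := by
        calc |∑ s ∈ S, ((l.count s / N : ℕ) : ℤ) * c s b|
            ≤ ∑ s ∈ S, |((l.count s / N : ℕ) : ℤ) * c s b| := Finset.abs_sum_le_sum_abs _ _
          _ ≤ ∑ s ∈ S, ((l.count s * D : ℕ) : ℤ) := by
            refine Finset.sum_le_sum fun s hs => ?_
            rw [abs_mul, Nat.abs_cast, Nat.cast_mul]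
            have h1 : ((l.count s / N : ℕ) : ℤ) ≤ (l.count s : ℤ) := by
              exact_mod_cast Nat.div_le_self _ _
            have h2 : |c s b| ≤ (D : ℤ) := by
              rw [Int.abs_eq_natAbs]
              have h3 : (c s b).natAbs ≤ ∑ b ∈ B, (c s b).natAbs :=
                Finset.single_le_sum (f := fun b => (c s b).natAbs) (fun _ _ => Nat.zero_le _) hb
              have h4 : ∑ b ∈ B, (c s b).natAbs ≤ D :=
                Finset.single_le_sum (f := fun s => ∑ b ∈ B, (c s b).natAbs)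
                  (fun _ _ => Nat.zero_le _) hs
              exact_mod_cast h3.trans h4
            exact mul_le_mul h1 h2 (abs_nonneg _) (by positivity)
          _ = (((∑ s ∈ S, l.count s) * D : ℕ) : ℤ) := by
            rw [Finset.sum_mul]
            push_cast
            rfl
          _ ≤ ((n * D : ℕ) : ℤ) := by
            exact_mod_cast Nat.mul_le_mul_right D hcount
      rw [abs_le] at habs
      exact Finset.mem_Icc.2 habs
    simp only [Finset.coe_image, Finset.coe_univ, Set.image_univ, Set.mem_range]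
    refine ⟨(fun s => ⟨l.count (s : A) % N, Nat.mod_lt _ hN⟩,
      fun b => ⟨∑ s ∈ S, ((l.count s / N : ℕ) : ℤ) * c s b, hz b b.2⟩), ?_⟩
    simp only [φ]
    rw [hsum]
    have e1 : ∑ s : S, (l.count (s : A) % N) • (s : A) = ∑ s ∈ S, (l.count s % N) • s :=
      Finset.sum_coe_sort S (fun s => (l.count s % N) • s)
    have e2 : ∑ b : B, (∑ s ∈ S, ((l.count s / N : ℕ) : ℤ) * c s (b : A)) • (b : A) =
        ∑ b ∈ B, (∑ s ∈ S, ((l.count s / N : ℕ) : ℤ) * c s b) • b :=
      Finset.sum_coe_sort B (fun b => (∑ s ∈ S, ((l.count s / N : ℕ) : ℤ) * c s b) • b)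
    have e3 : ∑ b ∈ B, (∑ s ∈ S, ((l.count s / N : ℕ) : ℤ) * c s b) • b =
        ∑ s ∈ S, (l.count s / N) • (N • s) := by
      simp only [Finset.sum_smul, mul_smul]
      rw [Finset.sum_comm]
      refine Finset.sum_congr rfl fun s hs => ?_
      rw [hc s hs, ← natCast_zsmul, Finset.smul_sum]
    rw [e1, e2, e3, ← Finset.sum_add_distrib]
    refine Finset.sum_congr rfl fun s _ => ?_
    rw [smul_smul, ← add_smul]
    congr 1
    exact Nat.mod_add_div' _ _
  have h1 : ((Finset.univ : Finset ((S → Fin N) × (B → I))).image φ).card ≤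
      N ^ S.card * (2 * (n * D) + 1) ^ B.card := by
    refine Finset.card_image_le.trans (le_of_eq ?_)
    rw [Finset.card_univ, Fintype.card_prod, Fintype.card_fun, Fintype.card_fun]
    simp [hI]
  have h2 : (2 * (n * D) + 1) ^ B.card ≤ ((2 * D + 1) * (n + 1)) ^ k := by
    refine (Nat.pow_le_pow_left (by nlinarith) _).trans
      (Nat.pow_le_pow_right (by positivity) hBk)
  calc _ ≤ ((Finset.univ : Finset ((S → Fin N) × (B → I))).image φ).card := by
        rw [← Set.ncard_coe_finset]
        exact Set.ncard_le_ncard hsub (Finset.finite_toSet _)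
    _ ≤ N ^ S.card * (2 * (n * D) + 1) ^ B.card := h1
    _ ≤ N ^ S.card * ((2 * D + 1) * (n + 1)) ^ k := Nat.mul_le_mul_left _ h2
    _ = N ^ S.card * (2 * D + 1) ^ k * (n + 1) ^ k := by rw [mul_pow]; ring

end Cor90

/-- Abelian subgroups `C` such that, for every finitely generated `F`, the ranks of the groups
`C ∩ g F g⁻¹` are bounded. -/
theorem locGrowth_abelian90 {G : Type} [Group G] (C : Subgroup G)
    (hC : ∀ x ∈ C, ∀ y ∈ C, x * y = y * x)
    (hr : ∀ F : Subgroup G, F.FG → ∃ k : ℕ, ∀ g : G, ∀ v : Fin (k + 1) → C,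
      (∀ i, g⁻¹ * (v i : G) * g ∈ F) → ∃ z : Fin (k + 1) → ℤ, z ≠ 0 ∧
        (List.ofFn fun i => (v i : G) ^ z i).prod = 1) :
    LocGrowth C := by
  classical
  let _ : CommGroup C := { (inferInstance : Group C) with
    mul_comm := fun x y => Subtype.ext (hC x x.2 y y.2) }
  intro F hF
  obtain ⟨k, hk⟩ := hr F hF
  refine ⟨k, fun g S hS hSF => ?_⟩
  -- the finite set inside the additive group
  let T : Finset (Additive C) := (hS.preimage (f := fun x : Additive C => ((x.toMul : C) : G))
    (fun x _ y _ h => by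
      have : x.toMul = y.toMul := Subtype.ext h
      simpa using this)).toFinset
  have hT : ∀ x : Additive C, x ∈ T ↔ ((x.toMul : C) : G) ∈ S := by
    intro x
    simp [T]
  obtain ⟨a, ha⟩ := Cor90.core (k := k) T (by
    intro v hv
    obtain ⟨z, hz, hprod⟩ := hk g (fun i => (v i).toMul) (fun i => (hSF _ ((hT _).1 (hv i))).2)
    refine ⟨z, hz, ?_⟩
    have h1 : (∏ i, (v i).toMul ^ z i : C) = 1 := by
      apply Subtype.ext
      have h2 : ((List.ofFn fun i => (v i).toMul ^ z i).prod : C) = ∏ i, (v i).toMul ^ z i :=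
        List.prod_ofFn
      rw [← h2]
      have h3 : (((List.ofFn fun i => (v i).toMul ^ z i).prod : C) : G) =
          (List.ofFn fun i => ((v i).toMul : G) ^ z i).prod := by
        rw [← Subgroup.coe_subtype, map_list_prod, List.map_ofFn]
        rfl
      rw [h3, hprod]
      rfl
    have h4 : Additive.ofMul (∏ i, (v i).toMul ^ z i : C) = Additive.ofMul 1 := by rw [h1]
    rw [ofMul_prod] at h4
    simpa using h4)
  refine ⟨a, fun n => ?_⟩
  have himg : {x : G | ∃ l : List G, l.length ≤ n ∧ (∀ s ∈ l, s ∈ S) ∧ l.prod = x} ⊆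
      (fun x : Additive C => ((x.toMul : C) : G)) ''
      {x : Additive C | ∃ l : List (Additive C), l.length ≤ n ∧ (∀ s ∈ l, s ∈ T) ∧ l.sum = x} := by
    rintro x ⟨l, hl, hls, rfl⟩
    have hlC : ∀ s ∈ l, s ∈ C := fun s hs => (hSF s (hls s hs)).1
    let l' : List (Additive C) := l.attach.map fun s => Additive.ofMul (⟨s.1, hlC s.1 s.2⟩ : C)
    refine ⟨l'.sum, ⟨l', by simpa [l'] using hl, ?_, rfl⟩, ?_⟩
    · intro s hs
      simp only [l', List.mem_map, List.mem_attach, true_and] at hs
      obtain ⟨t, rfl⟩ := hs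
      rw [hT]
      exact hls _ t.2
    · have h1 : l'.sum = Additive.ofMul ((l.attach.map fun s => (⟨s.1, hlC s.1 s.2⟩ : C)).prod) := by
        rw [ofMul_list_prod, List.map_map]
        rfl
      simp only [h1, toMul_ofMul]
      rw [← Subgroup.coe_subtype, map_list_prod, List.map_map]
      have : (⇑C.subtype ∘ fun s : {x // x ∈ l} => (⟨s.1, hlC s.1 s.2⟩ : C)) = Subtype.val := rfl
      rw [this, List.attach_map_subtype_val]
  have hfin : {x : Additive C | ∃ l : List (Additive C), l.length ≤ n ∧ (∀ s ∈ l, s ∈ T) ∧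
      l.sum = x}.Finite := by
    have hf : {l : List (Additive C) | l.length ≤ n ∧ ∀ s ∈ l, s ∈ T}.Finite := by
      have := (T.finite_toSet)
      exact (List.finite_length_le (T : Set (Additive C)) n).image (fun l => l.map Subtype.val)
        |>.subset (by
          rintro l ⟨h1, h2⟩
          refine ⟨l.attach.map fun s => ⟨s.1, h2 s.1 s.2⟩, by simpa using h1, ?_⟩
          simp only [List.map_map, Function.comp_def]
          exact List.attach_map_subtype_val l)
    refine (hf.image List.sum).subset ?_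
    rintro x ⟨l, h1, h2, rfl⟩
    exact ⟨l, ⟨h1, h2⟩, rfl⟩
  calc _ ≤ _ := Set.ncard_le_ncard himg (hfin.image _)
    _ ≤ _ := Set.ncard_image_le hfin
    _ ≤ _ := ha n

end Pool.Agent.Lib.MP_1df68a_gt.PG
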