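import Pool.Agent.Lib.MP_1df68a_gt.PG.Stmts45

set_option autoImplicit false

/-! Module K: the key lemma from A and B. -/

namespace Pool.Agent.Lib.MP_1df68a_gt.PG

open Relation Finset

section

variable {G : Type} {e : G → G → ℕ} {X W : Set G} {R r : ℕ}

/-- The union of the pieces which contain a point of `W` at distance at most `s * r` from `x`. -/
def TK (e : G → G → ℕ) (X W : Set G) (R r s : ℕ) (x : G) : Set G :=
  {z | ∃ y ∈ W, e x y ≤ s * r ∧ ReflTransGen (Step e X R) y z}

theorem step_symmK (he : IsPM e) {a b : G} (h : Step e X R a b) : Step e X R b a :=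
  ⟨h.2.1, h.1, by rw [he.symm]; exact h.2.2⟩

theorem chain_symmK (he : IsPM e) {a b : G} (h : ReflTransGen (Step e X R) a b) :
    ReflTransGen (Step e X R) b a := by
  induction h with
  | refl => exact ReflTransGen.refl
  | tail _ hbc ih => exact ReflTransGen.head (step_symmK he hbc) ih

theorem TK_mono (x : G) {s s' : ℕ} (h : s ≤ s') : TK e X W R r s x ⊆ TK e X W R r s' x := by
  rintro z ⟨y, hy, h1, h2⟩
  exact ⟨y, hy, h1.trans (Nat.mul_le_mul_right _ h), h2⟩

theorem TK_step (he : IsPM e) {x x' : G} (h : e x x' ≤ r) (s : ℕ) :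
    TK e X W R r s x ⊆ TK e X W R r (s + 1) x' := by
  rintro z ⟨y, hy, h1, h2⟩
  refine ⟨y, hy, ?_, h2⟩
  have h3 := he.tri x' x y
  have h4 := he.symm x' x
  rw [Nat.add_mul, Nat.one_mul]
  omega

theorem exists_stable (he : IsPM e) (k : ℕ) {x : G} (hx : x ∈ W)
    (hF : ∀ F : Finset G, (∀ y ∈ F, y ∈ W ∧ e x y ≤ 2 * k * r) →
      (∀ y ∈ F, ∀ z ∈ F, y ≠ z → ¬ ReflTransGen (Step e X R) y z) → F.card ≤ 2 * k) :
    ∃ s < 2 * k + 1, TK e X W R r s x = TK e X W R r (s + 1) x := by
  classical
  by_contra hcon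
  push Not at hcon
  have key : ∀ m ≤ 2 * k, ∃ F : Finset G, F.card = m + 1 ∧ (∀ y ∈ F, y ∈ W ∧ e x y ≤ m * r) ∧
      (∀ y ∈ F, ∀ z ∈ F, y ≠ z → ¬ ReflTransGen (Step e X R) y z) := by
    intro m
    induction m with
    | zero =>
      intro _
      refine ⟨{x}, by simp, ?_, ?_⟩
      · intro y hy
        rw [mem_singleton] at hy
        subst hy
        exact ⟨hx, by rw [he.self]; exact Nat.zero_le _⟩
      · intro y hy z hz hne
        rw [mem_singleton] at hy hz
        exact absurd (hy.trans hz.symm) hne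
    | succ m ih =>
      intro hm
      obtain ⟨F, hc, h1, h2⟩ := ih (by omega)
      have hne := hcon m (by omega)
      have : ¬ TK e X W R r (m + 1) x ⊆ TK e X W R r m x := fun h =>
        hne (Set.Subset.antisymm (TK_mono x (Nat.le_succ m)) h)
      rw [Set.not_subset] at this
      obtain ⟨z, ⟨y, hy, hy1, hyz⟩, hz⟩ := this
      have hyF : ∀ f ∈ F, ¬ ReflTransGen (Step e X R) f y := by
        intro f hf hfy
        exact hz ⟨f, (h1 f hf).1, (h1 f hf).2, hfy.trans hyz⟩
      have hyn : y ∉ F := fun h => hyF y h ReflTransGen.refl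
      refine ⟨insert y F, by rw [card_insert_of_notMem hyn, hc], ?_, ?_⟩
      · intro f hf
        rcases mem_insert.1 hf with rfl | hf
        · exact ⟨hy, hy1⟩
        · exact ⟨(h1 f hf).1, (h1 f hf).2.trans (Nat.mul_le_mul_right _ (Nat.le_succ m))⟩
      · intro f hf g hg hfg hch
        rcases mem_insert.1 hf with hf' | hf'
        · rcases mem_insert.1 hg with hg' | hg'
          · exact hfg (hf'.trans hg'.symm)
          · rw [hf'] at hch
            exact hyF g hg' (chain_symmK he hch)
        · rcases mem_insert.1 hg with hg' | hg'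
          · rw [hg'] at hch
            exact hyF f hf' hch
          · exact h2 f hf' g hg' hfg hch
  obtain ⟨F, hc, h1, h2⟩ := key (2 * k) le_rfl
  have := hF F h1 h2
  omega

end

theorem stK_of (hA : StA) (hB : StB) : StK := by
  classical
  intro Γ Z _ _ e X U R A k hgeo r
  have he := hgeo.pm
  rcases isEmpty_or_nonempty Z with hZ | hZ
  · exact ⟨0, fun _ => ∅, fun x _ => (hZ.false x).elim, fun x => (hZ.false x).elim,
      fun j _ _ x => (hZ.false x).elim⟩
  obtain ⟨DB, W, hWX, hbd, hmul⟩ := hB Γ Z e X U R A k hgeo (2 * k * r)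
  obtain ⟨DA, κ, hκ, hch⟩ := hA Γ Z e X U R A k hgeo ((4 * k + 1) * r)
  have hst : ∀ x ∈ W, ∃ s < 2 * k + 1, TK e X W R r s x = TK e X W R r (s + 1) x :=
    fun x hx => exists_stable he k hx (fun F h1 h2 => hmul x (hWX hx) F h1 h2)
  choose! s hs hsT using hst
  -- the leader of a set
  let ld : Set Z → Z := fun T => if h : T.Nonempty then h.choose else Classical.arbitrary Z
  have hld : ∀ T : Set Z, T.Nonempty → ld T ∈ T := fun T h => by
    show (if h : T.Nonempty then h.choose else Classical.arbitrary Z) ∈ T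
    rw [dif_pos h]
    exact h.choose_spec
  have hw : ∀ x ∈ W, ∃ y ∈ W, e x y ≤ s x * r ∧
      ReflTransGen (Step e X R) y (ld (TK e X W R r (s x) x)) := by
    intro x hx
    have hne : (TK e X W R r (s x) x).Nonempty :=
      ⟨x, x, hx, by rw [he.self]; exact Nat.zero_le _, ReflTransGen.refl⟩
    exact hld _ hne
  choose! w hwW hwd hwl using hw
  let S : ℕ → Set Z := fun j => if j = 0 then X \ W else
    {x | x ∈ W ∧ 1 + s x * (2 * k + 1) + κ (w x) = j}
  refine ⟨DB + (DA + 4 * k * r), S, ?_, ?_, ?_⟩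
  · intro x hx
    by_cases hxW : x ∈ W
    · have h1 := hs x hxW
      have h2 := hκ (w x) (hWX (hwW x hxW))
      refine ⟨1 + s x * (2 * k + 1) + κ (w x), ?_, ?_⟩
      · have h3 : s x * (2 * k + 1) ≤ 2 * k * (2 * k + 1) := Nat.mul_le_mul_right _ (by omega)
        have h4 : (2 * k + 1) * (2 * k + 1) = 2 * k * (2 * k + 1) + (2 * k + 1) := by ring
        omega
      · show x ∈ (if 1 + s x * (2 * k + 1) + κ (w x) = 0 then X \ W else _)
        rw [if_neg (by omega)]
        exact ⟨hxW, rfl⟩
    · refine ⟨0, by omega, ?_⟩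
      show x ∈ (if 0 = 0 then X \ W else _)
      rw [if_pos rfl]
      exact ⟨hx, hxW⟩
  · have h0 : S 0 = X \ W := if_pos rfl
    rw [h0]
    exact hbd.mono subset_rfl le_rfl (by omega)
  · intro j hj hj1
    have hS : S j = {x | x ∈ W ∧ 1 + s x * (2 * k + 1) + κ (w x) = j} := if_neg (by omega)
    rw [hS]
    intro x y hxy
    rcases hxy.cases_head with h | ⟨c, hc, _⟩
    · subst h
      rw [he.self]
      exact Nat.zero_le _
    obtain ⟨hxW, hxj⟩ := hc.1
    -- the colour determines the two coordinates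
    have hcol : ∀ y ∈ W, 1 + s y * (2 * k + 1) + κ (w y) = j → s y = s x ∧ κ (w y) = κ (w x) := by
      intro y hy hyj
      have h1 := hκ (w x) (hWX (hwW x hxW))
      have h2 := hκ (w y) (hWX (hwW y hy))
      have h3 : s y = s x := by
        have e1 : (κ (w y) + (2 * k + 1) * s y) / (2 * k + 1) = s y := by
          rw [Nat.add_mul_div_left _ _ (by omega), Nat.div_eq_of_lt h2, Nat.zero_add]
        have e2 : (κ (w x) + (2 * k + 1) * s x) / (2 * k + 1) = s x := by
          rw [Nat.add_mul_div_left _ _ (by omega), Nat.div_eq_of_lt h1, Nat.zero_add]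
        have e3 : κ (w y) + (2 * k + 1) * s y = κ (w x) + (2 * k + 1) * s x := by
          rw [Nat.mul_comm _ (s y), Nat.mul_comm _ (s x)]
          omega
        rw [← e1, ← e2, e3]
      refine ⟨h3, ?_⟩
      rw [h3] at hyj
      omega
    have hkey : ∀ y, ReflTransGen (Step e {x | x ∈ W ∧ 1 + s x * (2 * k + 1) + κ (w x) = j} r) x y →
        y ∈ W ∧ 1 + s y * (2 * k + 1) + κ (w y) = j ∧
        ReflTransGen (fun a b => a ∈ X ∧ b ∈ X ∧ κ a = κ (w x) ∧ κ b = κ (w x) ∧
          ReflTransGen (Step e X R) a b ∧ e a b ≤ (4 * k + 1) * r) (w x) (w y) := by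
      intro y hxy
      induction hxy with
      | refl => exact ⟨hxW, hxj, ReflTransGen.refl⟩
      | @tail b c _ hbc ih =>
        obtain ⟨hb, hbj, hchain⟩ := ih
        obtain ⟨-, ⟨hcW, hcj⟩, hle⟩ := hbc
        refine ⟨hcW, hcj, hchain.tail ?_⟩
        obtain ⟨hsb, hκb⟩ := hcol b hb hbj
        obtain ⟨hsc, hκc⟩ := hcol c hcW hcj
        have hT : TK e X W R r (s b) b = TK e X W R r (s c) c := by
          have t1 := hsT b hb
          have t2 := hsT c hcW
          rw [hsb] at t1 ⊢
          rw [hsc] at t2 ⊢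
          apply Set.Subset.antisymm
          · rw [t2]
            exact TK_step he hle _
          · rw [t1]
            exact TK_step he (by rw [he.symm]; exact hle) _
        have hp : ReflTransGen (Step e X R) (w b) (w c) := by
          have p1 := hwl b hb
          have p2 := hwl c hcW
          rw [hT] at p1
          exact p1.trans (chain_symmK he p2)
        refine ⟨hWX (hwW b hb), hWX (hwW c hcW), hκb, hκc, hp, ?_⟩
        have d1 := hwd b hb
        have d2 := hwd c hcW
        have d3 := he.tri (w b) b (w c)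
        have d4 := he.tri b c (w c)
        have d5 := he.symm (w b) b
        have d6 : s b * r ≤ 2 * k * r := Nat.mul_le_mul_right _ (by have := hs b hb; omega)
        have d7 : s c * r ≤ 2 * k * r := Nat.mul_le_mul_right _ (by have := hs c hcW; omega)
        have d8 : (4 * k + 1) * r = 2 * k * r + 2 * k * r + r := by ring
        omega
    obtain ⟨hyW, hyj, hchain⟩ := hkey y hxy
    have h1 := hch _ _ _ hchain
    have d1 := hwd x hxW
    have d2 := hwd y hyW
    have d3 := he.tri x (w x) y
    have d4 := he.tri (w x) (w y) y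
    have d5 := he.symm (w y) y
    have d6 : s x * r ≤ 2 * k * r := Nat.mul_le_mul_right _ (by have := hs x hxW; omega)
    have d7 : s y * r ≤ 2 * k * r := Nat.mul_le_mul_right _ (by have := hs y hyW; omega)
    have d8 : 4 * k * r = 2 * k * r + 2 * k * r := by ring
    omega

end Pool.Agent.Lib.MP_1df68a_gt.PG
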