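import Pool.Agent.Lib.MP_1df68a_gt.PG.Stmts45

set_option autoImplicit false

/-! Module M1: strict unique maxima of random labels. -/

namespace Pool.Agent.Lib.MP_1df68a_gt.PG

open Finset

section

variable {ι : Type} [Fintype ι] [DecidableEq ι] {M : ℕ}

/-- The labelings with a strict unique maximum over `B` at `z`. -/
noncomputable def mx (M : ℕ) (B : Finset ι) (z : ι) : Finset (ι → Fin M) := by
  classical
  exact univ.filter fun f => ∀ y ∈ B, y ≠ z → f y < f z

theorem mem_mx (B : Finset ι) (z : ι) (f : ι → Fin M) :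
    f ∈ mx M B z ↔ ∀ y ∈ B, y ≠ z → f y < f z := by
  classical
  rw [mx, mem_filter]
  exact ⟨fun h => h.2, fun h => ⟨mem_univ _, h⟩⟩

theorem swap_mx (B : Finset ι) {z z' : ι} (_hz : z ∈ B) (hz' : z' ∈ B) (f : ι → Fin M)
    (hf : f ∈ mx M B z) : f ∘ Equiv.swap z z' ∈ mx M B z' := by
  rw [mem_mx] at hf ⊢
  intro y hy hne
  show f (Equiv.swap z z' y) < f (Equiv.swap z z' z')
  rw [Equiv.swap_apply_right]
  refine hf _ ?_ ?_
  · by_cases h : y = z
    · rw [h, Equiv.swap_apply_left]
      exact hz'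
    · rw [Equiv.swap_apply_of_ne_of_ne h hne]
      exact hy
  · intro h
    apply hne
    have := congrArg (Equiv.swap z z') h
    rwa [Equiv.swap_apply_left, Equiv.swap_apply_self] at this

theorem card_mx (B : Finset ι) {z z' : ι} (hz : z ∈ B) (hz' : z' ∈ B) :
    (mx M B z).card = (mx M B z').card := by
  refine Finset.card_nbij' (fun f => f ∘ Equiv.swap z z') (fun f => f ∘ Equiv.swap z z')
    (fun f hf => swap_mx B hz hz' f hf) (fun f hf => ?_) (fun f _ => ?_) (fun f _ => ?_)
  · have := swap_mx B hz' hz f hf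
    rwa [Equiv.swap_comm] at this
  · funext y
    show f (Equiv.swap z z' (Equiv.swap z z' y)) = f y
    rw [Equiv.swap_apply_self]
  · funext y
    show f (Equiv.swap z z' (Equiv.swap z z' y)) = f y
    rw [Equiv.swap_apply_self]

/-- The labelings with a tie in `B`. -/
noncomputable def tie (M : ℕ) (B : Finset ι) : Finset (ι → Fin M) := by
  classical
  exact (B ×ˢ B).biUnion fun p => if p.1 = p.2 then ∅ else univ.filter fun f => f p.1 = f p.2

theorem mem_tie (B : Finset ι) (f : ι → Fin M) {z z' : ι} (hz : z ∈ B) (hz' : z' ∈ B)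
    (hne : z ≠ z') (h : f z = f z') : f ∈ tie M B := by
  classical
  rw [tie, mem_biUnion]
  refine ⟨(z, z'), mem_product.2 ⟨hz, hz'⟩, ?_⟩
  rw [if_neg hne, mem_filter]
  exact ⟨mem_univ _, h⟩

theorem card_eq_le (z z' : ι) (hne : z ≠ z') :
    (univ.filter fun f : ι → Fin M => f z = f z').card * M ≤ M ^ Fintype.card ι := by
  have h1 : (univ.filter fun f : ι → Fin M => f z = f z').card * M =
      ((univ.filter fun f : ι → Fin M => f z = f z') ×ˢ (univ : Finset (Fin M))).card := by
    rw [card_product, card_univ, Fintype.card_fin]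
  have h2 : M ^ Fintype.card ι = (univ : Finset (ι → Fin M)).card := by
    rw [card_univ, Fintype.card_fun, Fintype.card_fin]
  rw [h1, h2]
  refine Finset.card_le_card_of_injOn (fun p => Function.update p.1 z p.2)
    (fun _ _ => mem_univ _) ?_
  rintro ⟨f, a⟩ hf ⟨g, b⟩ hg hfg
  have hf' : f z = f z' := by simpa using hf
  have hg' : g z = g z' := by simpa using hg
  have hfg' : Function.update f z a = Function.update g z b := hfg
  have hab : a = b := by
    have := congrFun hfg' z
    rwa [Function.update_self, Function.update_self] at this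
  have hne' : ∀ y, y ≠ z → f y = g y := by
    intro y hy
    have := congrFun hfg' y
    rwa [Function.update_of_ne hy, Function.update_of_ne hy] at this
  have : f = g := by
    funext y
    by_cases hy : y = z
    · rw [hy, hf', hg']
      exact hne' z' hne.symm
    · exact hne' y hy
  rw [this, hab]

theorem card_tie (B : Finset ι) : (tie M B).card * M ≤ B.card ^ 2 * M ^ Fintype.card ι := by
  classical
  calc (tie M B).card * M
      ≤ (∑ p ∈ B ×ˢ B, (if p.1 = p.2 then ∅ else
          univ.filter fun f : ι → Fin M => f p.1 = f p.2).card) * M :=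
        Nat.mul_le_mul_right _ card_biUnion_le
    _ = ∑ p ∈ B ×ˢ B, (if p.1 = p.2 then ∅ else
          univ.filter fun f : ι → Fin M => f p.1 = f p.2).card * M := by rw [sum_mul]
    _ ≤ ∑ _p ∈ B ×ˢ B, M ^ Fintype.card ι := by
        refine sum_le_sum fun p _ => ?_
        split_ifs with h
        · simp
        · exact card_eq_le _ _ h
    _ = B.card ^ 2 * M ^ Fintype.card ι := by
        rw [sum_const, card_product, smul_eq_mul, sq]

theorem mx_disjoint (B : Finset ι) {z z' : ι} (hz : z ∈ B) (hz' : z' ∈ B) (hne : z ≠ z') :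
    Disjoint (mx M B z) (mx M B z') := by
  rw [disjoint_left]
  intro f hf hf'
  rw [mem_mx] at hf hf'
  exact absurd (hf z' hz' hne.symm) (not_lt.2 (hf' z hz hne).le)

theorem mx_or_tie (B : Finset ι) (hB : B.Nonempty) (f : ι → Fin M) :
    f ∈ tie M B ∨ ∃ z ∈ B, f ∈ mx M B z := by
  obtain ⟨z, hz, hmax⟩ := exists_max_image B f hB
  by_cases h : ∃ y ∈ B, y ≠ z ∧ f y = f z
  · obtain ⟨y, hy, hne, he⟩ := h
    exact Or.inl (mem_tie B f hy hz hne he)
  · push Not at h
    refine Or.inr ⟨z, hz, (mem_mx B z f).2 fun y hy hne => ?_⟩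
    exact lt_of_le_of_ne (hmax y hy) (h y hy hne)

theorem m1_core (hM : 0 < M) (B' B : Finset ι) (hBB : B' ⊆ B) (hB : B.Nonempty)
    (S : Finset (ι → Fin M)) (hS : ∀ f ∈ S, ∀ z ∈ B', f ∉ mx M B z) :
    (S.card : ℝ) ≤ (1 - (B'.card : ℝ) / B.card + (B.card : ℝ) ^ 2 / M) *
      (M : ℝ) ^ Fintype.card ι := by
  classical
  obtain ⟨z₀, hz₀⟩ := hB
  set a := (mx M B z₀).card with ha
  have hcard : ∀ z ∈ B, (mx M B z).card = a := fun z hz => card_mx B hz hz₀
  have hΩ : (univ : Finset (ι → Fin M)).card = M ^ Fintype.card ι := by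
    rw [card_univ, Fintype.card_fun, Fintype.card_fin]
  have h1 : M ^ Fintype.card ι ≤ (tie M B).card + B.card * a := by
    rw [← hΩ]
    calc (univ : Finset (ι → Fin M)).card ≤ (tie M B ∪ B.biUnion (mx M B)).card := by
          refine card_le_card fun f _ => ?_
          rcases mx_or_tie B ⟨z₀, hz₀⟩ f with h | ⟨z, hz, h⟩
          · exact mem_union_left _ h
          · exact mem_union_right _ (mem_biUnion.2 ⟨z, hz, h⟩)
      _ ≤ (tie M B).card + (B.biUnion (mx M B)).card := card_union_le _ _
      _ ≤ (tie M B).card + ∑ z ∈ B, (mx M B z).card := by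
          gcongr
          exact card_biUnion_le
      _ = (tie M B).card + B.card * a := by
          rw [sum_congr rfl hcard, sum_const, smul_eq_mul]
  have h2 : S.card + B'.card * a ≤ M ^ Fintype.card ι := by
    rw [← hΩ]
    have h3 : (B'.biUnion (mx M B)).card = B'.card * a := by
      rw [card_biUnion]
      · rw [sum_congr rfl (fun z hz => hcard z (hBB hz)), sum_const, smul_eq_mul]
      · intro z hz z' hz' hne
        exact mx_disjoint B (hBB hz) (hBB hz') hne
    have h4 : Disjoint S (B'.biUnion (mx M B)) := by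
      rw [disjoint_left]
      intro f hf hf'
      obtain ⟨z, hz, h⟩ := mem_biUnion.1 hf'
      exact hS f hf z hz h
    rw [← h3, ← card_union_of_disjoint h4]
    exact card_le_card (subset_univ _)
  have h5 := card_tie (M := M) B
  have hb : (0 : ℝ) < B.card := by
    exact_mod_cast card_pos.2 ⟨z₀, hz₀⟩
  have hb' : (B'.card : ℝ) ≤ B.card := by exact_mod_cast card_le_card hBB
  have hM' : (0 : ℝ) < M := by exact_mod_cast hM
  have h1' : (M : ℝ) ^ Fintype.card ι ≤ (tie M B).card + B.card * a := by exact_mod_cast h1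
  have h2' : (S.card : ℝ) + B'.card * a ≤ (M : ℝ) ^ Fintype.card ι := by exact_mod_cast h2
  have h5' : ((tie M B).card : ℝ) * M ≤ (B.card : ℝ) ^ 2 * (M : ℝ) ^ Fintype.card ι := by
    exact_mod_cast h5
  set m := (M : ℝ) ^ Fintype.card ι with hm
  set t := ((tie M B).card : ℝ) with ht
  have ht0 : 0 ≤ t := by positivity
  have h6 : t ≤ (B.card : ℝ) ^ 2 / M * m := by
    rw [div_mul_eq_mul_div, le_div_iff₀ hM']
    exact h5'
  have hq : (B'.card : ℝ) / B.card ≤ 1 := (div_le_one hb).2 hb'
  have hq0 : 0 ≤ (B'.card : ℝ) / B.card := by positivity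
  have h7 : (B'.card : ℝ) / B.card * (m - t) ≤ B'.card * a := by
    calc (B'.card : ℝ) / B.card * (m - t) ≤ (B'.card : ℝ) / B.card * (B.card * a) :=
          mul_le_mul_of_nonneg_left (by linarith) hq0
      _ = B'.card * a := by field_simp
  have h8 : (B'.card : ℝ) / B.card * t ≤ t := by
    calc (B'.card : ℝ) / B.card * t ≤ 1 * t := mul_le_mul_of_nonneg_right hq ht0
      _ = t := one_mul t
  have h9 : (1 - (B'.card : ℝ) / B.card + (B.card : ℝ) ^ 2 / M) * m =
      m - (B'.card : ℝ) / B.card * m + (B.card : ℝ) ^ 2 / M * m := by ring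
  rw [h9]
  have h10 : (B'.card : ℝ) / B.card * (m - t) = (B'.card : ℝ) / B.card * m -
      (B'.card : ℝ) / B.card * t := by ring
  linarith

end

theorem stM1 : StM1 := by
  classical
  intro V M B' B hM hBB hB
  refine ⟨?_, ?_⟩
  · intro l l' hll hl hcon
    apply hl
    obtain ⟨z, hz, h⟩ := hcon
    refine ⟨z, hz, fun z' hz' hne => ?_⟩
    rw [hll z' hz', hll z (hBB hz)]
    exact h z' hz' hne
  · intro W hBW l₀ S hS
    have hc : ∀ D : Finset V, D ⊆ W →
        ((univ.filter fun w : W => w.1 ∈ D) : Finset W).card = D.card := by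
      intro D hD
      refine Finset.card_nbij (fun w => w.1) (fun w hw => (mem_filter.1 hw).2) ?_ ?_
      · intro a _ b _ hab
        exact Subtype.ext hab
      · intro v hv
        exact ⟨⟨v, hD hv⟩, by simpa using hv, rfl⟩
    have hW : Fintype.card W = W.card := Fintype.card_coe W
    rw [← hW, ← hc B hBW, ← hc B' (hBB.trans hBW)]
    refine m1_core hM _ _ ?_ ?_ S ?_
    · intro w hw
      rw [mem_filter] at hw ⊢
      exact ⟨hw.1, hBB hw.2⟩
    · obtain ⟨v, hv⟩ := hB
      exact ⟨⟨v, hBW hv⟩, mem_filter.2 ⟨mem_univ _, hv⟩⟩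
    · intro f hf z hz hmx
      rw [mem_mx] at hmx
      apply hS f hf
      refine ⟨z.1, (mem_filter.1 hz).2, fun z' hz' hne => ?_⟩
      beta_reduce
      rw [dif_pos (hBW hz'), dif_pos z.2]
      exact hmx ⟨z', hBW hz'⟩ (mem_filter.2 ⟨mem_univ _, hz'⟩) (fun h => hne (by rw [← h]))

end Pool.Agent.Lib.MP_1df68a_gt.PG
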