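import Pool.Agent.Lib.MP_1df68a_gt.PG.Stmts45

set_option autoImplicit false

/-! A common good radius for finitely many functions of polynomial growth. -/

namespace Pool.Agent.Lib.MP_1df68a_gt.PG

open Finset

lemma poly_lt_exp (A C k : ℕ) : ∃ n₀ : ℕ, ∀ n ≥ n₀, (A : ℝ) * ((C : ℝ) * n ^ 2 + 1) ^ k < 2 ^ n := by
  have h := tendsto_pow_const_div_const_pow_of_one_lt (2 * k) (one_lt_two : (1 : ℝ) < 2)
  have hc : (0 : ℝ) < 1 / ((A : ℝ) * ((C : ℝ) + 1) ^ k + 1) := by positivity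
  have h2 := (h.eventually (gt_mem_nhds hc)).and (Filter.eventually_ge_atTop 1)
  obtain ⟨n₀, hn₀⟩ := Filter.eventually_atTop.1 h2
  refine ⟨n₀, fun n hn => ?_⟩
  obtain ⟨h3, h4⟩ := hn₀ n hn
  have hn1 : (1 : ℝ) ≤ n := by exact_mod_cast h4
  have h5 : (C : ℝ) * n ^ 2 + 1 ≤ ((C : ℝ) + 1) * n ^ 2 := by nlinarith
  have h6 : ((C : ℝ) * n ^ 2 + 1) ^ k ≤ (((C : ℝ) + 1) * n ^ 2) ^ k :=
    pow_le_pow_left₀ (by positivity) h5 k
  have h7 : (((C : ℝ) + 1) * n ^ 2) ^ k = ((C : ℝ) + 1) ^ k * (n : ℝ) ^ (2 * k) := by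
    rw [mul_pow, ← pow_mul]
  have h8 : (n : ℝ) ^ (2 * k) * ((A : ℝ) * ((C : ℝ) + 1) ^ k + 1) < 2 ^ n := by
    rw [div_lt_div_iff₀ (by positivity) (by positivity), one_mul] at h3
    exact h3
  calc (A : ℝ) * ((C : ℝ) * n ^ 2 + 1) ^ k ≤ A * (((C : ℝ) + 1) ^ k * (n : ℝ) ^ (2 * k)) := by
        rw [← h7]; gcongr
    _ ≤ (n : ℝ) ^ (2 * k) * ((A : ℝ) * ((C : ℝ) + 1) ^ k + 1) := by
        have : (0 : ℝ) ≤ (n : ℝ) ^ (2 * k) := by positivity
        nlinarith
    _ < 2 ^ n := h8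

/-- If `a` grows by the factor `1 / (1 - 1/N)` at the places of `B`, then it is large. -/
lemma growth_of_bad (N : ℕ) (hN : 2 ≤ N) (a : ℕ → ℝ) (ha : ∀ i, 1 ≤ a i) (hm : Monotone a)
    (B : Finset ℕ) (hB : ∀ i ∈ B, a i < (1 - 1 / (N : ℝ)) * a (i + 1)) :
    ∀ j, (1 + 1 / (N : ℝ)) ^ (B.filter (fun i => i < j)).card ≤ a j := by
  have hN0 : (0 : ℝ) < N := by positivity
  intro j
  induction j with
  | zero => simpa using ha 0
  | succ j ih =>
    by_cases hj : j ∈ B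
    · have h1 : (B.filter (fun i => i < j + 1)) = insert j (B.filter (fun i => i < j)) := by
        ext i
        simp only [mem_filter, mem_insert]
        constructor
        · rintro ⟨h1, h2⟩
          rcases Nat.lt_succ_iff_lt_or_eq.1 h2 with h | h
          · exact Or.inr ⟨h1, h⟩
          · exact Or.inl h
        · rintro (h | ⟨h1, h2⟩)
          · subst h; exact ⟨hj, by omega⟩
          · exact ⟨h1, by omega⟩
      rw [h1, card_insert_of_notMem (by simp), pow_succ]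
      have h2 := hB j hj
      have h3 : 0 < 1 - 1 / (N : ℝ) := by
        have : (1 : ℝ) / N ≤ 1 / 2 := by
          apply one_div_le_one_div_of_le (by norm_num)
          exact_mod_cast hN
        linarith
      have h4 : (1 + 1 / (N : ℝ)) * (1 - 1 / (N : ℝ)) ≤ 1 := by
        have : (0 : ℝ) ≤ (1 / (N : ℝ)) ^ 2 := by positivity
        nlinarith
      have h5 : (0 : ℝ) < 1 + 1 / (N : ℝ) := by positivity
      calc (1 + 1 / (N : ℝ)) ^ (B.filter (fun i => i < j)).card * (1 + 1 / (N : ℝ))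
          ≤ a j * (1 + 1 / (N : ℝ)) := by gcongr
        _ ≤ ((1 - 1 / (N : ℝ)) * a (j + 1)) * (1 + 1 / (N : ℝ)) := by gcongr
        _ = ((1 + 1 / (N : ℝ)) * (1 - 1 / (N : ℝ))) * a (j + 1) := by ring
        _ ≤ 1 * a (j + 1) := by
            apply mul_le_mul_of_nonneg_right h4
            linarith [ha (j + 1)]
        _ = a (j + 1) := one_mul _
    · have h1 : (B.filter (fun i => i < j + 1)) = (B.filter (fun i => i < j)) := by
        ext i
        simp only [mem_filter]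
        constructor
        · rintro ⟨h1, h2⟩
          refine ⟨h1, ?_⟩
          rcases Nat.lt_succ_iff_lt_or_eq.1 h2 with h | h
          · exact h
          · subst h; exact absurd h1 hj
        · rintro ⟨h1, h2⟩
          exact ⟨h1, by omega⟩
      rw [h1]
      exact ih.trans (hm (by omega))

theorem stM2 : StM2 := by
  intro k A s Q ι _ V hmono hpos hle
  classical
  have := Fintype.ofFinite ι
  set J := Fintype.card ι + 1 with hJ
  set s1 := s + 1 with hs1
  set c : ℝ := 3 + 8 * s1 with hc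
  obtain ⟨n₀, hn₀⟩ := poly_lt_exp A (J ^ 2 * (1 + 2 * s1)) k
  obtain ⟨n₁, hn₁⟩ := exists_nat_ge (|Q| * 2 ^ (2 * k + 1) * c ^ k)
  set n := n₀ + n₁ + 2 with hn
  set N := J * n with hNdef
  have hJ1 : 1 ≤ J := by omega
  have hnN : n ≤ N := Nat.le_mul_of_pos_left n hJ1
  have hN2 : 2 ≤ N := by omega
  have hNpos : (0 : ℝ) < N := by positivity
  -- existence of a good radius
  have hgood : ∃ i < N ^ 2, ∀ u : ι, (1 - 1 / (N : ℝ)) * (V u (N ^ 2 + 2 * s1 * (i + 1)) : ℝ) ≤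
      V u (N ^ 2 + 2 * s1 * i) := by
    by_contra hcon
    push Not at hcon
    let Bs : ι → Finset ℕ := fun u => (range (N ^ 2)).filter (fun i =>
      (V u (N ^ 2 + 2 * s1 * i) : ℝ) < (1 - 1 / (N : ℝ)) * (V u (N ^ 2 + 2 * s1 * (i + 1)) : ℝ))
    have hcover : range (N ^ 2) ⊆ univ.biUnion Bs := by
      intro i hi
      rw [mem_range] at hi
      obtain ⟨u, hu⟩ := hcon i hi
      exact mem_biUnion.2 ⟨u, mem_univ _, mem_filter.2 ⟨mem_range.2 hi, hu⟩⟩
    have hsum : N ^ 2 ≤ ∑ u, (Bs u).card := by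
      have h1 := (card_le_card hcover).trans card_biUnion_le
      rwa [card_range] at h1
    have hex : ∃ u, n * N ≤ (Bs u).card := by
      by_contra hno
      push Not at hno
      have h1 : ∑ u, (Bs u).card ≤ ∑ _u : ι, n * N := sum_le_sum (fun u _ => (hno u).le)
      rw [sum_const, card_univ, smul_eq_mul] at h1
      have h2 : Fintype.card ι * (n * N) < N ^ 2 := by
        have h3 : N ^ 2 = J * (n * N) := by rw [hNdef]; ring
        rw [h3, hJ]
        have : 0 < n * N := by positivity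
        nlinarith
      omega
    obtain ⟨u, hu⟩ := hex
    have h1 := growth_of_bad N hN2 (fun i => (V u (N ^ 2 + 2 * s1 * i) : ℝ))
      (fun i => by exact_mod_cast hpos u _)
      (fun i j hij => by
        show (V u (N ^ 2 + 2 * s1 * i) : ℝ) ≤ V u (N ^ 2 + 2 * s1 * j)
        exact_mod_cast hmono u (by gcongr))
      (Bs u) (fun i hi => (mem_filter.1 hi).2) (N ^ 2)
    have h2 : (Bs u).filter (fun i => i < N ^ 2) = Bs u := by
      apply filter_true_of_mem
      intro i hi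
      exact mem_range.1 (mem_filter.1 hi).1
    rw [h2] at h1
    have h3 : (2 : ℝ) ^ n ≤ (1 + 1 / (N : ℝ)) ^ (Bs u).card := by
      have h4 : (2 : ℝ) ≤ (1 + 1 / (N : ℝ)) ^ N := by
        have := one_add_mul_le_pow (show (-2 : ℝ) ≤ 1 / (N : ℝ) by
          have : (0 : ℝ) ≤ 1 / (N : ℝ) := by positivity
          linarith) N
        have h5 : (N : ℝ) * (1 / (N : ℝ)) = 1 := by field_simp
        linarith
      calc (2 : ℝ) ^ n ≤ ((1 + 1 / (N : ℝ)) ^ N) ^ n := by gcongr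
        _ = (1 + 1 / (N : ℝ)) ^ (n * N) := by rw [← pow_mul, mul_comm]
        _ ≤ _ := pow_le_pow_right₀ (by
            have : (0 : ℝ) ≤ 1 / (N : ℝ) := by positivity
            linarith) hu
    have h6 : (V u (N ^ 2 + 2 * s1 * N ^ 2) : ℝ) ≤
        A * (((J ^ 2 * (1 + 2 * s1) : ℕ) : ℝ) * n ^ 2 + 1) ^ k := by
      have h7 := hle u (N ^ 2 + 2 * s1 * N ^ 2)
      have h8 : (V u (N ^ 2 + 2 * s1 * N ^ 2) : ℝ) ≤
          ((A * (N ^ 2 + 2 * s1 * N ^ 2 + 1) ^ k : ℕ) : ℝ) := by exact_mod_cast h7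
      refine h8.trans (le_of_eq ?_)
      rw [hNdef]
      push_cast
      ring
    have h9 := hn₀ n (by omega)
    linarith
  obtain ⟨i, hi, hgi⟩ := hgood
  set K := N ^ 2 + 2 * s1 * i + s1 with hK
  have hK1 : K - s1 = N ^ 2 + 2 * s1 * i := by omega
  have hK2 : K + s1 = N ^ 2 + 2 * s1 * (i + 1) := by rw [hK]; ring
  set Vm : ℕ := A * (K + s + 1) ^ k with hVm
  refine ⟨K, N * Vm ^ 2 + 1, 2 / N, by omega, by omega, by positivity, ?_, ?_⟩
  · intro u
    have hKs : V u (K - s1) ≤ V u (K - s) := hmono u (by omega)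
    have hKs' : V u (K + s) ≤ V u (K + s1) := hmono u (by omega)
    have h1 := hgi u
    rw [← hK1, ← hK2] at h1
    have hp : (0 : ℝ) < V u (K + s) := by exact_mod_cast hpos u _
    have hone : (0 : ℝ) ≤ 1 - 1 / (N : ℝ) := by
      have : (1 : ℝ) / N ≤ 1 := by
        rw [div_le_one hNpos]
        exact_mod_cast (by omega : 1 ≤ N)
      linarith
    have h2 : (1 - 1 / (N : ℝ)) * (V u (K + s) : ℝ) ≤ V u (K - s) := by
      calc (1 - 1 / (N : ℝ)) * (V u (K + s) : ℝ) ≤ (1 - 1 / (N : ℝ)) * (V u (K + s1) : ℝ) := by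
            apply mul_le_mul_of_nonneg_left _ hone
            exact_mod_cast hKs'
        _ ≤ V u (K - s1) := h1
        _ ≤ V u (K - s) := by exact_mod_cast hKs
    have h3 : 1 - 1 / (N : ℝ) ≤ (V u (K - s) : ℝ) / V u (K + s) := by
      rw [le_div_iff₀ hp]; exact h2
    have h4 : (V u (K + s) : ℝ) ≤ Vm := by exact_mod_cast hle u (K + s)
    have h5 : ((V u (K + s) : ℝ)) ^ 2 / ((N * Vm ^ 2 + 1 : ℕ) : ℝ) ≤ 1 / N := by
      have hVmp : (0 : ℝ) < Vm := lt_of_lt_of_le hp h4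
      rw [div_le_div_iff₀ (by positivity) hNpos]
      push_cast
      have h6 : (V u (K + s) : ℝ) ^ 2 ≤ (Vm : ℝ) ^ 2 := pow_le_pow_left₀ hp.le h4 2
      nlinarith
    have h7 : (2 : ℝ) / N = 1 / N + 1 / N := by ring
    rw [h7]
    linarith
  · have hKN : (2 * ((K : ℝ) + s) + 1) ≤ c * N ^ 2 := by
      have h1 : K + s ≤ (1 + 4 * s1) * N ^ 2 := by
        have h2 : s1 * i + s1 ≤ s1 * N ^ 2 := by
          have : i + 1 ≤ N ^ 2 := hi
          calc s1 * i + s1 = s1 * (i + 1) := by ring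
            _ ≤ s1 * N ^ 2 := Nat.mul_le_mul_left _ this
        have h3 : s ≤ s1 * N ^ 2 := by
          have : 1 ≤ N ^ 2 := Nat.one_le_pow _ _ (by omega)
          calc s ≤ s1 * 1 := by omega
            _ ≤ s1 * N ^ 2 := Nat.mul_le_mul_left _ this
        have h4 : s1 * i ≤ s1 * N ^ 2 := Nat.mul_le_mul_left _ hi.le
        rw [hK]
        have h5 : (1 + 4 * s1) * N ^ 2 = N ^ 2 + s1 * N ^ 2 + s1 * N ^ 2 + s1 * N ^ 2 + s1 * N ^ 2 := by
          ring
        have h6 : 2 * s1 * i = s1 * i + s1 * i := by ring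
        rw [h5, h6]
        omega
      have h1' : (K : ℝ) + s ≤ (1 + 4 * s1) * N ^ 2 := by exact_mod_cast h1
      have h2 : (1 : ℝ) ≤ (N : ℝ) ^ 2 := by
        exact_mod_cast Nat.one_le_pow 2 N (by omega)
      rw [hc]
      nlinarith
    have hnonneg : (0 : ℝ) ≤ 2 * ((K : ℝ) + s) + 1 := by positivity
    have h1 : (2 * ((K : ℝ) + s) + 1) ^ k ≤ (c * N ^ 2) ^ k := pow_le_pow_left₀ hnonneg hKN k
    have hcpos : 0 < c := by rw [hc]; positivity
    calc Q * (2 / (N : ℝ)) ^ (2 * k + 1) * (2 * ((K : ℝ) + s) + 1) ^ k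
        ≤ |Q| * (2 / (N : ℝ)) ^ (2 * k + 1) * (2 * ((K : ℝ) + s) + 1) ^ k := by
          gcongr
          exact le_abs_self Q
      _ ≤ |Q| * (2 / (N : ℝ)) ^ (2 * k + 1) * (c * N ^ 2) ^ k := by gcongr
      _ = (|Q| * 2 ^ (2 * k + 1) * c ^ k) / N := by
          rw [div_pow, mul_pow, ← pow_mul, pow_succ (N : ℝ) (2 * k)]
          field_simp
      _ ≤ 1 := by
          rw [div_le_one hNpos]
          refine hn₁.trans ?_
          exact_mod_cast (by omega : n₁ ≤ N)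

end Pool.Agent.Lib.MP_1df68a_gt.PG
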