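import Pool.Agent.Lib.MP_1df68a_gt.PG.Stmts45
import Pool.Agent.Lib.MP_763321_co.LLL

set_option autoImplicit false

/-! The local lemma for infinitely many events. -/

namespace Pool.Agent.Lib.MP_1df68a_gt.PG

open Finset Pool.Agent.Lib.MP_763321_co.LLL

/-- The local lemma for random functions, events indexed by a finite set. -/
theorem finite_lll {V β : Type} [Fintype V] [DecidableEq V] [DecidableEq β] {K : ℕ} (hK : 0 < K)
    (F : Finset β) (E : β → Finset (V → Fin K)) (T : β → Finset V)
    (hdet : ∀ b ∈ F, DetBy (E b) (T b)) (p d : ℝ) (hp : 0 ≤ p) (hp2 : 2 * p < 1)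
    (hE : ∀ b ∈ F, ((E b).card : ℝ) ≤ p * (univ : Finset (V → Fin K)).card)
    (hd : ∀ b ∈ F, ((F.filter (fun b' => ¬ Disjoint (T b) (T b'))).card : ℝ) ≤ d)
    (hpd : 4 * p * d ≤ 1) : ∃ κ : V → Fin K, ∀ b ∈ F, κ ∉ E b := by
  have hne : (univ : Finset (V → Fin K)).Nonempty := ⟨fun _ => ⟨0, hK⟩, mem_univ _⟩
  have h := lll (univ : Finset (V → Fin K)) hne E F
    (fun b => F.filter (fun b' => ¬ Disjoint (T b) (T b'))) p d hp hp2 hd hpd
    (by
      intro v hv S hSF hdis hvS
      have hcardpos : (0 : ℝ) < (univ : Finset (V → Fin K)).card := by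
        exact_mod_cast card_pos.2 hne
      have h1 : (good univ E S).filter (fun w => w ∈ E v) = E v ∩ good univ E S := by
        ext w
        rw [mem_filter, mem_inter, and_comm]
      have hgood : DetBy (good univ E S) (T v)ᶜ := by
        intro κ κ' hκ
        rw [mem_good, mem_good]
        have h2 : ∀ v' ∈ S, (κ ∈ E v' ↔ κ' ∈ E v') := by
          intro v' hv'
          apply hdet v' (hSF hv')
          intro u hu
          apply hκ
          rw [mem_compl]
          intro huT
          have h3 : v' ∈ F.filter (fun v' => ¬ Disjoint (T v) (T v')) := by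
            rw [mem_filter]
            refine ⟨hSF hv', fun hd' => ?_⟩
            exact (Finset.disjoint_left.1 hd') huT hu
          exact (Finset.disjoint_left.1 hdis) hv' h3
        constructor
        · rintro ⟨_, h4⟩
          exact ⟨mem_univ _, fun B hB => fun h5 => h4 B hB ((h2 B hB).2 h5)⟩
        · rintro ⟨_, h4⟩
          exact ⟨mem_univ _, fun B hB => fun h5 => h4 B hB ((h2 B hB).1 h5)⟩
      have h5 := indep_count (E v) (good univ E S) (T v) (hdet v hv) hgood
      rw [h1]
      have h6 : ((E v ∩ good univ E S).card : ℝ) * (univ : Finset (V → Fin K)).card =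
          (E v).card * (good univ E S).card := by exact_mod_cast h5
      have h7 : ((E v ∩ good univ E S).card : ℝ) * (univ : Finset (V → Fin K)).card ≤
          (p * (good univ E S).card) * (univ : Finset (V → Fin K)).card := by
        rw [h6]
        calc ((E v).card : ℝ) * (good univ E S).card
            ≤ (p * (univ : Finset (V → Fin K)).card) * (good univ E S).card :=
              mul_le_mul_of_nonneg_right (hE v hv) (by positivity)
          _ = _ := by ring
      exact le_of_mul_le_mul_right h7 hcardpos)
  obtain ⟨κ, hκ⟩ := h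
  rw [mem_good] at hκ
  exact ⟨κ, fun v hv => hκ.2 v hv⟩

theorem stM3 : StM3 := by
  intro V β M E T p d hM hp hPB hdep hpd hp2
  classical
  let l₀ : V → Fin M := fun _ => ⟨0, hM⟩
  -- finitely many events
  have hfinite : ∀ F : Finset β, ∃ l : V → Fin M, ∀ b ∈ F, l ∉ E b := by
    intro F
    set W : Finset V := F.biUnion T with hW
    let gl : (W → Fin M) → V → Fin M := fun f v => if h : v ∈ W then f ⟨v, h⟩ else l₀ v
    let E' : β → Finset (W → Fin M) := fun b => univ.filter (fun f => gl f ∈ E b)
    let T' : β → Finset W := fun b => univ.filter (fun v => v.1 ∈ T b)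
    have hTW : ∀ b ∈ F, T b ⊆ W := fun b hb => subset_biUnion_of_mem T hb
    obtain ⟨κ, hκ⟩ := finite_lll (V := W) (K := M) hM F E' T' (by
      intro b hb f f' hff
      have hgl : ∀ v ∈ T b, gl f v = gl f' v := by
        intro v hv
        have hvW := hTW b hb hv
        show (if h : v ∈ W then f ⟨v, h⟩ else l₀ v) = (if h : v ∈ W then f' ⟨v, h⟩ else l₀ v)
        rw [dif_pos hvW, dif_pos hvW]
        exact hff _ (mem_filter.2 ⟨mem_univ _, hv⟩)
      simp only [E', mem_filter, mem_univ, true_and]
      exact ⟨(hPB b).1 _ _ hgl, (hPB b).1 _ _ (fun v hv => (hgl v hv).symm)⟩) p d hp hp2 (by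
      intro b hb
      have h1 := (hPB b).2 W (hTW b hb) l₀ (E' b) (by
        intro f hf
        have h2 : gl f ∈ E b := (mem_filter.1 hf).2
        convert h2)
      have h2 : ((univ : Finset (W → Fin M)).card : ℝ) = (M : ℝ) ^ W.card := by
        rw [card_univ, Fintype.card_fun, Fintype.card_fin, Fintype.card_coe]
        push_cast
        rfl
      rw [h2]
      exact h1) (by
      intro b hb
      obtain ⟨hf, hc⟩ := hdep b
      have h1 : (F.filter (fun b' => ¬ Disjoint (T' b) (T' b'))).card ≤ d := by
        rw [← Set.ncard_coe_finset]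
        refine (Set.ncard_le_ncard ?_ hf).trans hc
        intro b' hb'
        rw [mem_coe, mem_filter] at hb'
        intro hdis
        apply hb'.2
        rw [Finset.disjoint_left] at hdis ⊢
        intro v hv hv'
        exact hdis (mem_filter.1 hv).2 (mem_filter.1 hv').2
      exact_mod_cast h1) hpd
    refine ⟨gl κ, fun b hb hmem => hκ b hb ?_⟩
    exact mem_filter.2 ⟨mem_univ _, hmem⟩
  -- compactness
  let C : β → Set (V → Fin M) := fun b => {l | l ∉ E b}
  have hclosed : ∀ b, IsClosed (C b) := by
    intro b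
    have h1 : C b = (fun (l : V → Fin M) (v : T b) => l v) ⁻¹'
        {g : T b → Fin M | ∃ l : V → Fin M, (∀ v : T b, l v = g v) ∧ l ∉ E b} := by
      ext l
      constructor
      · intro hl
        exact ⟨l, fun _ => rfl, hl⟩
      · rintro ⟨l', h1, h2⟩ hl
        exact h2 ((hPB b).1 l l' (fun v hv => (h1 ⟨v, hv⟩).symm) hl)
    rw [h1]
    refine (isClosed_discrete _).preimage ?_
    exact continuous_pi (fun v => continuous_apply v.1)
  have h := IsCompact.inter_iInter_nonempty (isCompact_univ (X := V → Fin M)) C hclosed (by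
    intro u
    obtain ⟨l, hl⟩ := hfinite u
    refine ⟨l, Set.mem_univ _, ?_⟩
    simp only [Set.mem_iInter]
    exact fun b hb => hl b hb)
  obtain ⟨l, -, hl⟩ := h
  rw [Set.mem_iInter] at hl
  exact ⟨l, hl⟩

end Pool.Agent.Lib.MP_1df68a_gt.PG
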