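import Pool.Agent.Lib.MP_1df68a_gt.PG.Stmts45

set_option autoImplicit false

/-! Modules M4b (independence) and M4c (union bound). -/

namespace Pool.Agent.Lib.MP_1df68a_gt.PG

open Finset

theorem PB.mono {V : Type} {M : ℕ} {E E' : Set (V → Fin M)} {T T' : Finset V} {p p' : ℝ}
    (h : PB M E T p) (hE : E' ⊆ E)
    (hdet : ∀ l l' : V → Fin M, (∀ v ∈ T', l v = l' v) → l ∈ E' → l' ∈ E')
    (hT : T ⊆ T') (hp : p ≤ p') : PB M E' T' p' := by
  refine ⟨hdet, fun W hW l₀ S hS => ?_⟩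
  exact (h.2 W (hT.trans hW) l₀ S (fun f hf => hE (hS f hf))).trans
    (mul_le_mul_of_nonneg_right hp (by positivity))

theorem PB.mono_support {V : Type} {M : ℕ} {E : Set (V → Fin M)} {T T' : Finset V} {p p' : ℝ}
    (h : PB M E T p) (hT : T ⊆ T') (hp : p ≤ p') : PB M E T' p' :=
  h.mono subset_rfl (fun l l' hll hl => h.1 l l' (fun v hv => hll v (hT hv)) hl) hT hp

theorem PB.inter {V : Type} [DecidableEq V] {M : ℕ} {E E' : Set (V → Fin M)} {T T' : Finset V}
    {p p' : ℝ} (h : PB M E T p) (h' : PB M E' T' p') (hp : 0 ≤ p) (hd : Disjoint T T') :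
    PB M (E ∩ E') (T ∪ T') (p * p') := by
  classical
  refine ⟨fun l l' hll hl => ⟨h.1 l l' (fun v hv => hll v (mem_union_left _ hv)) hl.1,
    h'.1 l l' (fun v hv => hll v (mem_union_right _ hv)) hl.2⟩, fun W hW l₀ S hS => ?_⟩
  have hTW : T ⊆ W := subset_union_left.trans hW
  have hT'W : T' ⊆ W \ T := fun v hv =>
    mem_sdiff.2 ⟨hW (mem_union_right _ hv), fun hv' => disjoint_left.1 hd hv' hv⟩
  let ρ₁ : (W → Fin M) → (T → Fin M) := fun f v => f ⟨v.1, hTW v.2⟩
  let ρ₂ : (W → Fin M) → ((W \ T : Finset V) → Fin M) := fun f v =>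
    f ⟨v.1, (mem_sdiff.1 v.2).1⟩
  have h1 : ((S.image ρ₁).card : ℝ) ≤ p * (M : ℝ) ^ T.card := by
    refine h.2 T subset_rfl l₀ _ ?_
    intro g hg
    obtain ⟨f, hf, rfl⟩ := mem_image.1 hg
    refine h.1 _ _ ?_ (hS f hf).1
    intro v hv
    rw [dif_pos (hTW hv), dif_pos hv]
  have h2 : ((S.image ρ₂).card : ℝ) ≤ p' * (M : ℝ) ^ (W \ T).card := by
    refine h'.2 (W \ T) hT'W l₀ _ ?_
    intro g hg
    obtain ⟨f, hf, rfl⟩ := mem_image.1 hg
    refine h'.1 _ _ ?_ (hS f hf).2
    intro v hv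
    have hv' := hT'W hv
    rw [dif_pos (mem_sdiff.1 hv').1, dif_pos hv']
  have h3 : S.card ≤ (S.image ρ₁).card * (S.image ρ₂).card := by
    rw [← card_product]
    refine Finset.card_le_card_of_injOn (fun f => (ρ₁ f, ρ₂ f)) ?_ ?_
    · intro f hf
      exact mem_product.2 ⟨mem_image_of_mem _ hf, mem_image_of_mem _ hf⟩
    · intro f _ g _ hfg
      have e1 : ρ₁ f = ρ₁ g := (Prod.ext_iff.1 hfg).1
      have e2 : ρ₂ f = ρ₂ g := (Prod.ext_iff.1 hfg).2
      funext v
      by_cases hv : v.1 ∈ T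
      · exact congrFun e1 ⟨v.1, hv⟩
      · exact congrFun e2 ⟨v.1, mem_sdiff.2 ⟨v.2, hv⟩⟩
  have h3' : (S.card : ℝ) ≤ (S.image ρ₁).card * (S.image ρ₂).card := by exact_mod_cast h3
  have h4 : W.card = T.card + (W \ T).card := by
    rw [add_comm]
    exact (card_sdiff_add_card_eq_card hTW).symm
  calc (S.card : ℝ) ≤ (S.image ρ₁).card * (S.image ρ₂).card := h3'
    _ ≤ (p * (M : ℝ) ^ T.card) * (p' * (M : ℝ) ^ (W \ T).card) :=
        mul_le_mul h1 h2 (by positivity) (by positivity)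
    _ = p * p' * (M : ℝ) ^ W.card := by rw [h4, pow_add]; ring

theorem stM4b : StM4b := by
  intro V ι _ M I E T p hM hp hPB hT
  classical
  induction I using Finset.induction_on with
  | empty =>
    refine ⟨fun l l' _ _ => ?_, fun W _ l₀ S _ => ?_⟩
    · intro i hi
      exact absurd hi (notMem_empty i)
    · rw [prod_empty, one_mul]
      have := card_le_univ S
      rw [Fintype.card_fun, Fintype.card_fin, Fintype.card_coe] at this
      exact_mod_cast this
  | insert i I hi ih =>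
    have h1 := hPB i (mem_insert_self i I)
    have h2 := ih (fun j hj => hp j (mem_insert_of_mem hj)) (fun j hj => hPB j
      (mem_insert_of_mem hj)) (fun j hj k hk hne => hT j (mem_insert_of_mem hj) k
      (mem_insert_of_mem hk) hne)
    have hd : Disjoint (T i) (I.biUnion T) := by
      rw [disjoint_biUnion_right]
      intro j hj
      exact hT i (mem_insert_self i I) j (mem_insert_of_mem hj) (fun h => hi (h ▸ hj))
    have h3 := h1.inter h2 (hp i (mem_insert_self i I)) hd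
    rw [prod_insert hi, biUnion_insert]
    have h4 : {l | ∀ j ∈ insert i I, l ∈ E j} = E i ∩ {l | ∀ j ∈ I, l ∈ E j} := by
      ext l
      constructor
      · intro h
        exact ⟨h i (mem_insert_self i I), fun j hj => h j (mem_insert_of_mem hj)⟩
      · rintro ⟨h, h'⟩ j hj
        rcases mem_insert.1 hj with rfl | hj
        · exact h
        · exact h' j hj
    rw [h4]
    exact h3

theorem stM4c : StM4c := by
  intro V ι M I E T p hPB
  classical
  refine ⟨?_, fun W hW l₀ S hS => ?_⟩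
  · rintro l l' hll ⟨i, hi, hl⟩
    exact ⟨i, hi, (hPB i hi).1 l l' hll hl⟩
  · let Si : ι → Finset (W → Fin M) := fun i =>
      S.filter fun f => (fun v => if h : v ∈ W then f ⟨v, h⟩ else l₀ v) ∈ E i
    have h1 : S ⊆ I.biUnion Si := by
      intro f hf
      obtain ⟨i, hi, h⟩ := hS f hf
      exact mem_biUnion.2 ⟨i, hi, mem_filter.2 ⟨hf, h⟩⟩
    have h2 : (S.card : ℝ) ≤ ∑ i ∈ I, ((Si i).card : ℝ) := by
      exact_mod_cast (card_le_card h1).trans card_biUnion_le
    refine h2.trans ?_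
    rw [sum_mul]
    refine sum_le_sum fun i hi => (hPB i hi).2 W hW l₀ (Si i) ?_
    intro f hf
    exact (mem_filter.1 hf).2

end Pool.Agent.Lib.MP_1df68a_gt.PG
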