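import Pool.Agent.Lib.MP_1df68a_gt.PG.Final45
import Pool.Agent.Lib.MP_1df68a_gt.PG.M1_22
import Pool.Agent.Lib.MP_1df68a_gt.PG.M2_45
import Pool.Agent.Lib.MP_1df68a_gt.PG.M3_45
import Pool.Agent.Lib.MP_1df68a_gt.PG.M4_22
import Pool.Agent.Lib.MP_1df68a_gt.PG.A_67
import Pool.Agent.Lib.MP_1df68a_gt.PG.B_67
import Pool.Agent.Lib.MP_1df68a_gt.PG.K22
import Pool.Agent.Lib.MP_1df68a_gt.PG.Cor90

set_option autoImplicit false

/-! Special case of the theorem `PolyC`: commutative `C`. -/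

namespace Pool.Agent.Lib.MP_1df68a_gt.PG

open Monoid Monoid.PushoutI

/-- `H *_C K` has asymptotic property C if `H`, `K` have it and `C` is commutative and such that,
for every finitely generated `F ≤ H *_C K`, the ranks of the groups `C ∩ g F g⁻¹` are bounded. -/
theorem amalgam_abelian (G : Bool → Type) [∀ i, Group (G i)] (C : Type) [CommGroup C]
    (φ : ∀ i, C →* G i) (hφ : ∀ i, Function.Injective (φ i))
    (hG : ∀ i, ∃ d : G i → G i → ℝ, ProperMetric d ∧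
      (∀ g x y : G i, d (g * x) (g * y) = d x y) ∧ HasAPC d)
    (hC : ∀ F : Subgroup (PushoutI φ), F.FG → ∃ k : ℕ, ∀ (g : PushoutI φ) (v : Fin (k + 1) → C),
      (∀ i, g⁻¹ * base φ (v i) * g ∈ F) → ∃ z : Fin (k + 1) → ℤ, z ≠ 0 ∧ ∏ i, v i ^ z i = 1)
    (d : PushoutI φ → PushoutI φ → ℝ) (hd : ProperMetric d)
    (hinv : ∀ g x y : PushoutI φ, d (g * x) (g * y) = d x y) : HasAPC d := by
  refine polyC (stK_of (stA_67 stM1 stM2 stM3 stM4b) (stB_67 stM1 stM2 stM3 stM4b stM4c))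
    G C φ hφ hG (locGrowth_abelian90 _ ?_ ?_) d hd hinv
  · rintro _ ⟨x, rfl⟩ _ ⟨y, rfl⟩
    rw [← map_mul, ← map_mul, mul_comm]
  · intro F hF
    obtain ⟨k, hk⟩ := hC F hF
    refine ⟨k, fun g v hv => ?_⟩
    choose w hw using fun i => (v i).2
    obtain ⟨z, hz, hz1⟩ := hk g w (fun i => by rw [hw]; exact hv i)
    refine ⟨z, hz, ?_⟩
    have h1 : (List.ofFn fun i => (v i : PushoutI φ) ^ z i) =
        (List.ofFn fun i => w i ^ z i).map (base φ) := by
      rw [List.map_ofFn]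
      congr 1
      funext i
      rw [Function.comp_apply, map_zpow, hw]
    rw [h1, ← map_list_prod, List.prod_ofFn, hz1, map_one]

end Pool.Agent.Lib.MP_1df68a_gt.PG
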