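import Pool.Agent.Lib.MP_1df68a_gt.PG.Stmts45

set_option autoImplicit false

/-! Growth of the neighbourhoods of a subgroup of locally polynomial growth. -/

namespace Pool.Agent.Lib.MP_1df68a_gt.PG

open Relation

variable {G : Type} {e : G → G → ℕ} {X : Set G} {R : ℕ}

lemma ib_reach : ∀ (n : ℕ) (x y : G), y ∈ ib e X R n x → ReflTransGen (Step e X R) x y := by
  intro n
  induction n with
  | zero =>
    intro x y hy
    have : y = x := hy
    rw [this]
  | succ n ih =>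
    rintro x y ⟨z, hz, h⟩
    rcases h with h | h
    · rw [← h]; exact ih x z hz
    · exact (ih x z hz).tail h

variable [Group G]

lemma ib_translate (hinv : ∀ g x y, e (g * x) (g * y) = e x y) {C : Subgroup G}
    (hact : ∀ c ∈ C, ∀ x ∈ X, c * x ∈ X) {c : G} (hc : c ∈ C) :
    ∀ (n : ℕ) (x y : G), y ∈ ib e X R n x → c * y ∈ ib e X R n (c * x) := by
  intro n
  induction n with
  | zero =>
    intro x y hy
    have : y = x := hy
    rw [this]; rfl
  | succ n ih =>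
    rintro x y ⟨z, hz, h⟩
    refine ⟨c * z, ih x z hz, ?_⟩
    rcases h with h | ⟨h1, h2, h3⟩
    · left; rw [h]
    · right; exact ⟨hact c hc _ h1, hact c hc _ h2, by rw [hinv]; exact h3⟩

/-- words of length at most `n` -/
def Wd (S : Set G) (n : ℕ) : Set G :=
  {x : G | ∃ l : List G, l.length ≤ n ∧ (∀ s ∈ l, s ∈ S) ∧ l.prod = x}

lemma Wd_finite {S : Set G} (hS : S.Finite) : ∀ n, (Wd S n).Finite := by
  intro n
  induction n with
  | zero =>
    refine (Set.finite_singleton (1 : G)).subset ?_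
    rintro x ⟨l, hl, -, rfl⟩
    have : l = [] := List.length_eq_zero_iff.1 (by omega)
    simp [this]
  | succ n ih =>
    refine ((Set.finite_singleton (1 : G)).union (Set.Finite.image2 (fun a b => a * b) hS ih)).subset
      ?_
    rintro x ⟨l, hl, h, rfl⟩
    cases l with
    | nil => left; simp
    | cons a l =>
      right
      refine ⟨a, h a (by simp), l.prod, ⟨l, by simpa using hl, fun s hs => h s (by simp [hs]), rfl⟩,
        by simp⟩

theorem stG : StG := by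
  intro G _ e C hd hinv hfin hL R
  have hFfin : {g : G | e 1 g ≤ R}.Finite := hfin R
  set F : Subgroup G := Subgroup.closure {g : G | e 1 g ≤ R} with hF
  have hFG : F.FG := ⟨hFfin.toFinset, by rw [Set.Finite.coe_toFinset]⟩
  obtain ⟨k, hk⟩ := hL F hFG
  refine ⟨k, fun t => ?_⟩
  classical
  set U : Finset G := (hfin t).toFinset with hU
  set X : Set G := Nbd e t {x | x ∈ C} with hX
  have hmemU : ∀ u, u ∈ U ↔ e 1 u ≤ t := fun u => by simp [hU]
  have hact : ∀ c ∈ C, ∀ x ∈ X, c * x ∈ X := by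
    rintro c hc x ⟨y, hy, hxy⟩
    exact ⟨c * y, mul_mem hc hy, by rw [hinv]; exact hxy⟩
  have hUX : ∀ u ∈ U, u ∈ X := by
    intro u hu
    exact ⟨1, one_mem C, by rw [hd.symm]; exact (hmemU u).1 hu⟩
  have hcov : ∀ x ∈ X, ∃ c ∈ C, ∃ u ∈ U, x = c * u := by
    rintro x ⟨c, hc, hxc⟩
    refine ⟨c, hc, c⁻¹ * x, ?_, by group⟩
    rw [hmemU]
    have := hinv c 1 (c⁻¹ * x)
    rw [mul_one, mul_inv_cancel_left] at this
    rw [← this, hd.symm]
    exact hxc
  -- reachable representatives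
  let reach : G → G → Prop := fun u₀ u => ∃ c ∈ C, ReflTransGen (Step e X R) u₀ (c * u)
  let gg : G → G → G := fun u₀ u => if h : reach u₀ u then h.choose else 1
  have hgg : ∀ u₀ u, reach u₀ u → gg u₀ u ∈ C ∧
      ReflTransGen (Step e X R) u₀ (gg u₀ u * u) := by
    intro u₀ u h
    have h1 : gg u₀ u = h.choose := dif_pos h
    rw [h1]
    exact h.choose_spec
  let S : G → Set G := fun u₀ => {x | ∃ u ∈ U, ∃ u' ∈ U, reach u₀ u ∧ reach u₀ u' ∧
    ∃ c ∈ C, e u (c * u') ≤ R ∧ x = gg u₀ u * c * (gg u₀ u')⁻¹}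
  have hSfin : ∀ u₀, (S u₀).Finite := by
    intro u₀
    have h1 : (⋃ u ∈ U, ⋃ u' ∈ U, (fun b => gg u₀ u * (u * b * u'⁻¹) * (gg u₀ u')⁻¹) ''
        {g : G | e 1 g ≤ R}).Finite := by
      refine Set.Finite.biUnion U.finite_toSet (fun u _ => ?_)
      exact Set.Finite.biUnion U.finite_toSet (fun u' _ => hFfin.image _)
    refine h1.subset ?_
    rintro x ⟨u, hu, u', hu', -, -, c, hc, hR, rfl⟩
    simp only [Set.mem_iUnion]
    refine ⟨u, hu, u', hu', u⁻¹ * (c * u'), ?_, ?_⟩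
    · show e 1 (u⁻¹ * (c * u')) ≤ R
      have := hinv u 1 (u⁻¹ * (c * u'))
      rw [mul_one, mul_inv_cancel_left] at this
      rw [← this]
      exact hR
    · show gg u₀ u * (u * (u⁻¹ * (c * u')) * u'⁻¹) * (gg u₀ u')⁻¹ = _
      group
  have hcomp : ∀ x y, ReflTransGen (Step e X R) x y → x⁻¹ * y ∈ F := by
    intro x y h
    induction h with
    | refl => rw [inv_mul_cancel]; exact one_mem F
    | @tail b c _ hbc ih =>
      have h1 : b⁻¹ * c ∈ F := by
        apply Subgroup.subset_closure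
        show e 1 (b⁻¹ * c) ≤ R
        have := hinv b 1 (b⁻¹ * c)
        rw [mul_one, mul_inv_cancel_left] at this
        rw [← this]
        exact hbc.2.2
      have := mul_mem ih h1
      have h2 : x⁻¹ * b * (b⁻¹ * c) = x⁻¹ * c := by group
      rwa [h2] at this
  have hSmem : ∀ u₀, ∀ s ∈ S u₀, s ∈ C ∧ u₀⁻¹ * s * u₀ ∈ F := by
    rintro u₀ s ⟨u, hu, u', hu', hr, hr', c, hc, hR, rfl⟩
    obtain ⟨g1, g2⟩ := hgg u₀ u hr
    obtain ⟨g1', g2'⟩ := hgg u₀ u' hr'
    refine ⟨mul_mem (mul_mem g1 hc) (inv_mem g1'), ?_⟩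
    have h1 := hcomp _ _ g2
    have h2 := hcomp _ _ g2'
    have h3 : u⁻¹ * (c * u') ∈ F := by
      apply Subgroup.subset_closure
      show e 1 (u⁻¹ * (c * u')) ≤ R
      have := hinv u 1 (u⁻¹ * (c * u'))
      rw [mul_one, mul_inv_cancel_left] at this
      rw [← this]
      exact hR
    have h4 := mul_mem (mul_mem h1 h3) (inv_mem h2)
    have h5 : u₀⁻¹ * (gg u₀ u * u) * (u⁻¹ * (c * u')) * (u₀⁻¹ * (gg u₀ u' * u'))⁻¹ =
        u₀⁻¹ * (gg u₀ u * c * (gg u₀ u')⁻¹) * u₀ := by group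
    rwa [h5] at h4
  choose a ha using fun u₀ : G => hk u₀ (S u₀) (hSfin u₀) (hSmem u₀)
  have hrefl : ∀ u₀, reach u₀ u₀ := fun u₀ => ⟨1, one_mem C, by rw [one_mul]⟩
  have hword : ∀ u₀ ∈ U, ∀ (n : ℕ) (y : G), y ∈ ib e X R n u₀ →
      ∃ x ∈ Wd (S u₀) n, ∃ u ∈ U, reach u₀ u ∧ y = (gg u₀ u₀)⁻¹ * x * gg u₀ u * u := by
    intro u₀ hu₀ n
    induction n with
    | zero =>
      intro y hy
      have : y = u₀ := hy
      subst this
      exact ⟨1, ⟨[], by simp, by simp, rfl⟩, y, hu₀, hrefl y, by group⟩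
    | succ n ih =>
      rintro y ⟨z, hz, h⟩
      obtain ⟨x, ⟨l, hl, hlS, rfl⟩, u, hu, hr, hzx⟩ := ih z hz
      rcases h with h | ⟨h1, h2, h3⟩
      · subst h
        exact ⟨l.prod, ⟨l, by omega, hlS, rfl⟩, u, hu, hr, hzx⟩
      · obtain ⟨c', hc', u', hu', hy⟩ := hcov y h2
        obtain ⟨g1, g2⟩ := hgg u₀ u hr
        obtain ⟨g3, g4⟩ := hgg u₀ u₀ (hrefl u₀)
        have hlC : l.prod ∈ C := Subgroup.list_prod_mem C (fun s hs => (hSmem u₀ s (hlS s hs)).1)
        have hc1 : (gg u₀ u₀)⁻¹ * l.prod * gg u₀ u ∈ C := mul_mem (mul_mem (inv_mem g3) hlC) g1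
        set c1 := (gg u₀ u₀)⁻¹ * l.prod * gg u₀ u with hc1def
        have hreach' : reach u₀ u' := by
          refine ⟨c', hc', ?_⟩
          rw [← hy]
          exact (ib_reach n u₀ z hz).tail ⟨h1, h2, h3⟩
        have hR' : e u (c1⁻¹ * c' * u') ≤ R := by
          have := hinv c1 u (c1⁻¹ * c' * u')
          rw [← this]
          have e1 : c1 * (c1⁻¹ * c' * u') = y := by rw [hy]; group
          rw [e1, ← hzx]
          exact h3
        have hs : gg u₀ u * (c1⁻¹ * c') * (gg u₀ u')⁻¹ ∈ S u₀ :=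
          ⟨u, hu, u', hu', hr, hreach', _, mul_mem (inv_mem hc1) hc', hR', rfl⟩
        refine ⟨l.prod * (gg u₀ u * (c1⁻¹ * c') * (gg u₀ u')⁻¹),
          ⟨l ++ [gg u₀ u * (c1⁻¹ * c') * (gg u₀ u')⁻¹], by simp; omega, ?_, by simp⟩, u', hu',
          hreach', ?_⟩
        · intro s hs'
          rcases List.mem_append.1 hs' with h | h
          · exact hlS s h
          · rw [List.mem_singleton] at h
            rw [h]; exact hs
        · rw [hy, hc1def]
          group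
  have hfin' : ∀ (x : G) (n : ℕ), {y : G | e x y ≤ n}.Finite := by
    intro x n
    refine ((hfin n).image (fun g => x * g)).subset ?_
    intro y hy
    refine ⟨x⁻¹ * y, ?_, by simp⟩
    show e 1 (x⁻¹ * y) ≤ n
    have := hinv x 1 (x⁻¹ * y)
    rw [mul_one, mul_inv_cancel_left] at this
    rw [← this]
    exact hy
  refine ⟨U, ∑ u ∈ U, a u * U.card, ⟨hd, fun g x y => hinv g x y, hfin',
    fun g x hx => hact g g.2 x hx, hUX, ?_, ?_⟩⟩
  · intro x hx
    obtain ⟨c, hc, u, hu, h⟩ := hcov x hx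
    exact ⟨⟨c, hc⟩, u, hu, h⟩
  intro x hx n
  obtain ⟨c, hc, u₀, hu₀, rfl⟩ := hcov x hx
  have h1 : ib e X R n (c * u₀) ⊆ (fun y => c * y) '' (ib e X R n u₀) := by
    intro y hy
    refine ⟨c⁻¹ * y, ?_, by simp⟩
    have := ib_translate hinv hact (inv_mem hc) n (c * u₀) y hy
    rwa [inv_mul_cancel_left] at this
  have h2 : ib e X R n u₀ ⊆ (fun p : G × G => (gg u₀ u₀)⁻¹ * p.1 * gg u₀ p.2 * p.2) ''
      (Wd (S u₀) n ×ˢ (U : Set G)) := by
    intro y hy
    obtain ⟨x, hx, u, hu, -, rfl⟩ := hword u₀ hu₀ n y hy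
    exact ⟨(x, u), ⟨hx, hu⟩, rfl⟩
  have hWf := Wd_finite (hSfin u₀) n
  have hf2 : (Wd (S u₀) n ×ˢ (U : Set G)).Finite := hWf.prod U.finite_toSet
  have hf1 : (ib e X R n u₀).Finite := (hf2.image _).subset h2
  calc (ib e X R n (c * u₀)).ncard ≤ ((fun y => c * y) '' (ib e X R n u₀)).ncard :=
        Set.ncard_le_ncard h1 (hf1.image _)
    _ ≤ (ib e X R n u₀).ncard := Set.ncard_image_le hf1
    _ ≤ ((fun p : G × G => (gg u₀ u₀)⁻¹ * p.1 * gg u₀ p.2 * p.2) ''
          (Wd (S u₀) n ×ˢ (U : Set G))).ncard := Set.ncard_le_ncard h2 (hf2.image _)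
    _ ≤ (Wd (S u₀) n ×ˢ (U : Set G)).ncard := Set.ncard_image_le hf2
    _ = (Wd (S u₀) n).ncard * U.card := by rw [Set.ncard_prod, Set.ncard_coe_finset]
    _ ≤ (a u₀ * (n + 1) ^ k) * U.card := Nat.mul_le_mul_right _ (ha u₀ n)
    _ = (a u₀ * U.card) * (n + 1) ^ k := by ring
    _ ≤ (∑ u ∈ U, a u * U.card) * (n + 1) ^ k := by
        apply Nat.mul_le_mul_right
        exact Finset.single_le_sum (f := fun u => a u * U.card) (fun _ _ => Nat.zero_le _) hu₀

end Pool.Agent.Lib.MP_1df68a_gt.PG
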