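import Pool.Agent.Lib.MP_1df68a_gt.PG.Tower45
import Pool.Agent.Lib.MP_1df68a_gt.PG.G45
import Pool.Agent.Lib.MP_1df68a_gt.Defs
import Pool.Agent.Lib.MP_1df68a_gt.Transfer

set_option autoImplicit false

/-! Assembly: asymptotic property C for amalgams over subgroups of locally polynomial growth. -/

namespace Pool.Agent.Lib.MP_1df68a_gt.PG

open Monoid Monoid.PushoutI

theorem uProp_of_locGrowth (hK : StK) {G : Type} [Group G] (e : G → G → ℕ) (C : Subgroup G)
    (hd : IsPM e) (hinv : ∀ g x y, e (g * x) (g * y) = e x y)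
    (hfin : ∀ n : ℕ, {g : G | e 1 g ≤ n}.Finite) (hC : LocGrowth C) :
    UProp e {x | x ∈ C} := by
  intro s
  obtain ⟨k, hk⟩ := stG G e C hd hinv hfin hC s
  refine ⟨(2 * k + 1) * (2 * k + 1), fun r t => ?_⟩
  obtain ⟨U, A, hgeo⟩ := hk t
  exact hK C G e _ U s A k hgeo r

/-- Criterion: `H *_C K` has asymptotic property C if `H` and `K` have it and the neighbourhoods
of `C` are covered by one family of fixed scale and boundedly many families of arbitrary scale. -/
theorem amalgam_of_uProp (G : Bool → Type) [∀ i, Group (G i)] (C : Type) [Group C]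
    (φ : ∀ i, C →* G i) (hφ : ∀ i, Function.Injective (φ i))
    (hG : ∀ i, ∃ d : G i → G i → ℝ, ProperMetric d ∧
      (∀ g x y : G i, d (g * x) (g * y) = d x y) ∧ HasAPC d)
    (hU : ∀ e : PushoutI φ → PushoutI φ → ℕ, IsPM e → (∀ g x y, e (g * x) (g * y) = e x y) →
      (∀ n : ℕ, {g : PushoutI φ | e 1 g ≤ n}.Finite) → UProp e {x | x ∈ (base φ).range})
    (d : PushoutI φ → PushoutI φ → ℝ) (hd : ProperMetric d)
    (hinv : ∀ g x y : PushoutI φ, d (g * x) (g * y) = d x y) : HasAPC d := by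
  intro R hR
  have hcount : Countable (PushoutI φ) := by
    rw [← Set.countable_univ_iff]
    have : (Set.univ : Set (PushoutI φ)) = ⋃ n : ℕ, {x | d 1 x ≤ n} := by
      symm
      rw [Set.eq_univ_iff_forall]
      intro x
      obtain ⟨n, hn⟩ := exists_nat_ge (d 1 x)
      exact Set.mem_iUnion.2 ⟨n, hn⟩
    rw [this]
    exact Set.countable_iUnion fun n => (hd.fin 1 n).countable
  set M := pushAmalg hφ with hM
  obtain ⟨w, hw⟩ := exists_adm M.letters
    (by rintro s ⟨i, hi⟩; exact ⟨i, inv_mem hi⟩)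
    (by
      intro g
      obtain ⟨l, hl, h⟩ := M.gen g
      exact ⟨l, hl, h⟩)
  have hU' : UProp (wd M.letters w) {x | x ∈ M.C} := by
    refine hU (wd M.letters w) hw.isPM (fun g x y => wd_inv g x y) ?_
    intro n
    refine (hw.finite_ball n).subset ?_
    intro g hg
    have h1 : wd M.letters w 1 g ≤ n := hg
    show len M.letters w g ≤ n
    rwa [wd, inv_one, one_mul] at h1
  have hH' : ∀ i, ∀ r : ℕ → ℕ, ∃ n D, ∃ A : ℕ → Set (PushoutI φ),
      (∀ x ∈ M.H i, ∃ k < n, x ∈ A k) ∧ ∀ k < n, Bd (wd M.letters w) (A k) (r k) D := by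
    intro i r
    obtain ⟨dG, hdG, hGinv, hGU⟩ := hG i
    have hGfin : ∀ r : ℝ, Set.Finite {x : G i | dG 1 x ≤ r} := fun r => hdG.fin 1 r
    choose ρ hρ hρr using fun k => exists_bound_dist hw (of i : G i →* PushoutI φ)
      (of_injective hφ i) dG (r k)
    obtain ⟨n, U, hU1, hU2, hU3⟩ := hGU ρ hρ
    obtain ⟨D, hD⟩ := coarse_of_metric (S := M.letters) (w := w) (of i : G i →* PushoutI φ)
      dG hGinv hGfin n U r ρ (fun k _ => hρr k) hU1 hU2
    refine ⟨n, D, fun k => (of i : G i →* PushoutI φ) '' ⋃₀ U k, ?_, hD⟩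
    rintro x ⟨c, rfl⟩
    obtain ⟨k, hk, V, hV, hcV⟩ := hU3 c
    exact ⟨k, hk, c, ⟨V, hV, hcV⟩, rfl⟩
  have hfin : ∀ r : ℝ, Set.Finite {x : PushoutI φ | d 1 x ≤ r} := fun r => hd.fin 1 r
  choose r hr using fun k =>
    exists_bound_len (S := M.letters) (w := w) (fun g : PushoutI φ => g) d hfin (R k)
  obtain ⟨n, D, A, hcov, hA⟩ := stT (PushoutI φ) M w hw hU' hH' r
  obtain ⟨U, hU1, hU2, hU3⟩ := metric_of_coarse hw d hinv n D A r R
    (fun k _ => hr k) hA hcov
  exact ⟨n, U, hU1, hU2, hU3⟩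

/-- The theorem on amalgams over subgroups of locally polynomial growth, from the key lemma. -/
theorem polyC (hK : StK) (G : Bool → Type) [∀ i, Group (G i)] (C : Type) [Group C]
    (φ : ∀ i, C →* G i) (hφ : ∀ i, Function.Injective (φ i))
    (hG : ∀ i, ∃ d : G i → G i → ℝ, ProperMetric d ∧
      (∀ g x y : G i, d (g * x) (g * y) = d x y) ∧ HasAPC d)
    (hC : LocGrowth (base φ).range)
    (d : PushoutI φ → PushoutI φ → ℝ) (hd : ProperMetric d)
    (hinv : ∀ g x y : PushoutI φ, d (g * x) (g * y) = d x y) : HasAPC d :=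
  amalgam_of_uProp G C φ hφ hG
    (fun e he hei hef => uProp_of_locGrowth hK e _ he hei hef hC) d hd hinv

end Pool.Agent.Lib.MP_1df68a_gt.PG
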