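import Pool.Agent.Lib.MP_1df68a_gt.PG.Stmts45

/-!
# Intrinsic balls
-/

namespace Pool.Agent.Lib.MP_1df68a_gt.PG

open Relation Finset

variable {G : Type} {e : G → G → ℕ} {X : Set G} {R : ℕ}

theorem mem_ib_succ {n : ℕ} {x y : G} :
    y ∈ ib e X R (n + 1) x ↔ ∃ z ∈ ib e X R n x, z = y ∨ Step e X R z y := Iff.rfl

theorem self_mem_ib (n : ℕ) (x : G) : x ∈ ib e X R n x := by
  induction n with
  | zero => exact rfl
  | succ n ih => exact ⟨x, ih, Or.inl rfl⟩

theorem ib_mono {n m : ℕ} (h : n ≤ m) (x : G) : ib e X R n x ⊆ ib e X R m x := by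
  induction h with
  | refl => exact Set.Subset.refl _
  | step _ ih => exact fun y hy => ⟨y, ih hy, Or.inl rfl⟩

theorem ib_add {n m : ℕ} {x y z : G} (h1 : z ∈ ib e X R n x) (h2 : y ∈ ib e X R m z) :
    y ∈ ib e X R (n + m) x := by
  induction m generalizing y with
  | zero =>
    have : y = z := h2
    rw [this]
    exact h1
  | succ m ih =>
    obtain ⟨w, hw, h⟩ := h2
    exact ⟨w, ih hw, h⟩

theorem step_ib {x y : G} (h : Step e X R x y) : y ∈ ib e X R 1 x := ⟨x, rfl, Or.inr h⟩

theorem step_symm (he : IsPM e) {x y : G} (h : Step e X R x y) : Step e X R y x :=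
  ⟨h.2.1, h.1, by rw [he.symm]; exact h.2.2⟩

theorem ib_symm (he : IsPM e) {n : ℕ} {x y : G} (h : y ∈ ib e X R n x) : x ∈ ib e X R n y := by
  induction n generalizing y with
  | zero =>
    have : y = x := h
    exact this.symm
  | succ n ih =>
    obtain ⟨z, hz, h⟩ := h
    have h1 : z ∈ ib e X R 1 y := by
      rcases h with h | h
      · rw [h]; exact self_mem_ib 1 y
      · exact step_ib (step_symm he h)
    have h2 := ib_add h1 (ih hz)
    rwa [add_comm] at h2

theorem ib_dist (he : IsPM e) {n : ℕ} {x y : G} (h : y ∈ ib e X R n x) : e x y ≤ n * R := by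
  induction n generalizing y with
  | zero =>
    have : y = x := h
    rw [this, he.self]
    exact Nat.zero_le _
  | succ n ih =>
    obtain ⟨z, hz, h⟩ := h
    have h1 := ih hz
    rcases h with h | h
    · rw [← h]
      exact h1.trans (Nat.mul_le_mul_right _ (Nat.le_succ n))
    · have h2 := he.tri x z y
      have h3 := h.2.2
      rw [Nat.succ_mul]
      omega

theorem ib_sub {n : ℕ} {x : G} (hx : x ∈ X) : ib e X R n x ⊆ X := by
  induction n with
  | zero =>
    intro y hy
    have : y = x := hy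
    rw [this]
    exact hx
  | succ n ih =>
    rintro y ⟨z, hz, h | h⟩
    · rw [← h]; exact ih hz
    · exact h.2.1

theorem ib_conn {n : ℕ} {x y : G} (h : y ∈ ib e X R n x) : ReflTransGen (Step e X R) x y := by
  induction n generalizing y with
  | zero =>
    have : y = x := h
    rw [this]
  | succ n ih =>
    obtain ⟨z, hz, h⟩ := h
    rcases h with h | h
    · rw [← h]; exact ih hz
    · exact (ih hz).tail h

theorem conn_ib {x y : G} (h : ReflTransGen (Step e X R) x y) : ∃ n, y ∈ ib e X R n x := by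
  induction h with
  | refl => exact ⟨0, rfl⟩
  | tail _ h ih =>
    obtain ⟨n, hn⟩ := ih
    exact ⟨n + 1, _, hn, Or.inr h⟩

theorem conn_symm (he : IsPM e) {x y : G} (h : ReflTransGen (Step e X R) x y) :
    ReflTransGen (Step e X R) y x := by
  induction h with
  | refl => exact ReflTransGen.refl
  | tail _ h ih => exact (ReflTransGen.single (step_symm he h)).trans ih

section geo

variable {Γ Z : Type} [Group Γ] [MulAction Γ Z] {e : Z → Z → ℕ} {X : Set Z} {U : Finset Z}
  {R A k : ℕ}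

theorem Geo.step_act (h : Geo Γ Z e X U R A k) (c : Γ) {x y : Z}
    (hs : Step e X R x y) : Step e X R (c • x) (c • y) :=
  ⟨h.act c x hs.1, h.act c y hs.2.1, by rw [h.inv]; exact hs.2.2⟩

theorem Geo.ib_act (h : Geo Γ Z e X U R A k) (c : Γ) {n : ℕ} {x y : Z}
    (hy : y ∈ ib e X R n x) : c • y ∈ ib e X R n (c • x) := by
  induction n generalizing y with
  | zero =>
    have : y = x := hy
    rw [this]
    exact rfl
  | succ n ih =>
    obtain ⟨z, hz, h1⟩ := hy
    refine ⟨c • z, ih hz, ?_⟩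
    rcases h1 with h1 | h1
    · exact Or.inl (by rw [h1])
    · exact Or.inr (h.step_act c h1)

theorem Geo.conn_act (h : Geo Γ Z e X U R A k) (c : Γ) {x y : Z}
    (hs : ReflTransGen (Step e X R) x y) : ReflTransGen (Step e X R) (c • x) (c • y) := by
  obtain ⟨n, hn⟩ := conn_ib hs
  exact ib_conn (h.ib_act c hn)

theorem Geo.ball_card (h : Geo Γ Z e X U R A k) (c : Γ) (x : Z) (n : ℕ) :
    {y : Z | e (c • x) y ≤ n}.ncard = {y : Z | e x y ≤ n}.ncard := by
  have h1 : {y : Z | e (c • x) y ≤ n} = (fun g => c • g) '' {y : Z | e x y ≤ n} := by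
    ext y
    constructor
    · intro hy
      refine ⟨c⁻¹ • y, ?_, smul_inv_smul c y⟩
      show e x (c⁻¹ • y) ≤ n
      rw [← h.inv c, smul_inv_smul]
      exact hy
    · rintro ⟨g, hg, rfl⟩
      show e (c • x) (c • g) ≤ n
      rw [h.inv]
      exact hg
  rw [h1]
  exact Set.ncard_image_of_injective _ (MulAction.injective c)

/-- the number of points of the balls of radius `n` around points of `X` -/
noncomputable def Geo.vol (_ : Geo Γ Z e X U R A k) (n : ℕ) : ℕ :=
  U.sup fun u => {y : Z | e u y ≤ n}.ncard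

theorem Geo.ball_le (h : Geo Γ Z e X U R A k) {x : Z} (hx : x ∈ X) (n : ℕ) :
    {y : Z | e x y ≤ n}.ncard ≤ h.vol n := by
  obtain ⟨c, u, hu, rfl⟩ := h.cov x hx
  rw [h.ball_card]
  exact Finset.le_sup (f := fun u => {y : Z | e u y ≤ n}.ncard) hu

theorem Geo.ib_fin (h : Geo Γ Z e X U R A k) (n : ℕ) (x : Z) : (ib e X R n x).Finite :=
  (h.fin x (n * R)).subset fun _ hy => ib_dist h.pm hy

theorem Geo.ib_card_act (h : Geo Γ Z e X U R A k) (c : Γ) (n : ℕ) (x : Z) :
    (ib e X R n (c • x)).ncard = (ib e X R n x).ncard := by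
  have h1 : ib e X R n (c • x) = (fun g => c • g) '' ib e X R n x := by
    ext y
    constructor
    · intro hy
      refine ⟨c⁻¹ • y, ?_, smul_inv_smul c y⟩
      have h2 := h.ib_act c⁻¹ hy
      rwa [inv_smul_smul] at h2
    · rintro ⟨g, hg, rfl⟩
      exact h.ib_act c hg
  rw [h1]
  exact Set.ncard_image_of_injective _ (MulAction.injective c)

/-- Points of one piece at distance at most `ρ` have bounded intrinsic distance. -/
theorem Geo.exists_s (h : Geo Γ Z e X U R A k) (ρ : ℕ) : ∃ s : ℕ, ∀ a ∈ X, ∀ b,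
    ReflTransGen (Step e X R) a b → e a b ≤ ρ → b ∈ ib e X R s a := by
  classical
  have hex : ∀ u w : Z, ∃ n : ℕ, ReflTransGen (Step e X R) u w → w ∈ ib e X R n u := by
    intro u w
    by_cases hc : ReflTransGen (Step e X R) u w
    · obtain ⟨n, hn⟩ := conn_ib hc
      exact ⟨n, fun _ => hn⟩
    · exact ⟨0, fun h' => absurd h' hc⟩
  choose n hn using hex
  refine ⟨U.sup fun u => (h.fin u ρ).toFinset.sup (n u), ?_⟩
  intro a ha b hab hle
  obtain ⟨c, u, hu, rfl⟩ := h.cov a ha
  have h1 : ReflTransGen (Step e X R) u (c⁻¹ • b) := by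
    have := h.conn_act c⁻¹ hab
    rwa [inv_smul_smul] at this
  have h2 : e u (c⁻¹ • b) ≤ ρ := by
    rw [← h.inv c, smul_inv_smul]
    exact hle
  have h3 := hn u (c⁻¹ • b) h1
  have h4 : n u (c⁻¹ • b) ≤ U.sup fun u => (h.fin u ρ).toFinset.sup (n u) := by
    refine le_trans ?_ (Finset.le_sup (f := fun u => (h.fin u ρ).toFinset.sup (n u)) hu)
    exact Finset.le_sup (f := n u) ((Set.Finite.mem_toFinset _).2 h2)
  have h5 := h.ib_act c (ib_mono h4 u h3)
  rwa [smul_inv_smul] at h5

/-- the intrinsic ball as a `Finset` -/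
noncomputable def Geo.B (h : Geo Γ Z e X U R A k) (n : ℕ) (x : Z) : Finset Z :=
  (h.ib_fin n x).toFinset

theorem Geo.mem_B (h : Geo Γ Z e X U R A k) {n : ℕ} {x y : Z} : y ∈ h.B n x ↔ y ∈ ib e X R n x :=
  Set.Finite.mem_toFinset _

theorem Geo.card_B (h : Geo Γ Z e X U R A k) (n : ℕ) (x : Z) :
    (h.B n x).card = (ib e X R n x).ncard := (Set.ncard_eq_toFinset_card _ (h.ib_fin n x)).symm

end geo

/-- `y` is good: strict unique maximum over the ball of radius `n`, attained in the ball of radius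
`m` -/
def GoodMax (e : G → G → ℕ) (X : Set G) (R : ℕ) {M : ℕ} (l : G → Fin M) (m n : ℕ) (y : G) : Prop :=
  ∃ z ∈ ib e X R m y, ∀ z' ∈ ib e X R n y, z' ≠ z → l z' < l z

/-- Good points joined by a short intrinsic path have the same maximum. -/
theorem goodMax_eq (he : IsPM e) {M : ℕ} {l : G → Fin M} {K s : ℕ} (hsK : s ≤ K) {a b : G}
    (hab : b ∈ ib e X R s a) {z z' : G} (hz : z ∈ ib e X R (K - s) a)
    (hz1 : ∀ w ∈ ib e X R (K + s) a, w ≠ z → l w < l z) (hz' : z' ∈ ib e X R (K - s) b)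
    (hz1' : ∀ w ∈ ib e X R (K + s) b, w ≠ z' → l w < l z') : z = z' := by
  by_contra hne
  have h1 : z ∈ ib e X R (K + s) b := by
    have h2 := ib_add (ib_symm he hab) hz
    exact ib_mono (by omega) b h2
  have h3 : z' ∈ ib e X R (K + s) a := by
    have h2 := ib_add hab hz'
    exact ib_mono (by omega) a h2
  have h4 := hz1 z' h3 (Ne.symm hne)
  have h5 := hz1' z h1 hne
  exact lt_asymm h4 h5

theorem PB.mono_67 {V : Type} {M : ℕ} {E : Set (V → Fin M)} {T T' : Finset V} {p p' : ℝ}
    (h : PB M E T p) (hT : T ⊆ T') (hp : p ≤ p') : PB M E T' p' := by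
  refine ⟨fun l l' hl => h.1 l l' fun v hv => hl v (hT hv), ?_⟩
  intro W hW l₀ S hS
  refine (h.2 W (hT.trans hW) l₀ S hS).trans ?_
  exact mul_le_mul_of_nonneg_right hp (by positivity)

end Pool.Agent.Lib.MP_1df68a_gt.PG
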