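import Pool.Agent.Lib.MP_1df68a_gt.Tower

set_option autoImplicit false

/-! Statements for the theorem on amalgams over subgroups of locally polynomial growth. -/

namespace Pool.Agent.Lib.MP_1df68a_gt.PG

open Relation Finset

/-- intrinsic ball of radius `n` around `x`: chains of at most `n` steps of length at most `R`
inside `X` -/
def ib {G : Type} (e : G → G → ℕ) (X : Set G) (R : ℕ) : ℕ → G → Set G
  | 0, x => {x}
  | n + 1, x => {y | ∃ z ∈ ib e X R n x, z = y ∨ Step e X R z y}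

/-- A subset `X` of the locally finite space `(Z, e)`, on which the group `Γ` acts by isometries
with finitely many orbits in `X` (representatives in `U`), and whose intrinsic balls have at most
`A * (n + 1) ^ k` elements. -/
structure Geo (Γ Z : Type) [Group Γ] [MulAction Γ Z] (e : Z → Z → ℕ) (X : Set Z) (U : Finset Z)
    (R A k : ℕ) : Prop where
  pm : IsPM e
  inv : ∀ (g : Γ) (x y : Z), e (g • x) (g • y) = e x y
  fin : ∀ (x : Z) (n : ℕ), {y : Z | e x y ≤ n}.Finite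
  act : ∀ (g : Γ), ∀ x ∈ X, g • x ∈ X
  UX : ∀ u ∈ U, u ∈ X
  cov : ∀ x ∈ X, ∃ g : Γ, ∃ u ∈ U, x = g • u
  growth : ∀ x ∈ X, ∀ n : ℕ, (ib e X R n x).ncard ≤ A * (n + 1) ^ k

/-- The probability of the event `E` (a set of labelings, labels in `Fin M`) is at most `p`, and
`E` is determined by the labels on the finite set `T`. -/
def PB {V : Type} (M : ℕ) (E : Set (V → Fin M)) (T : Finset V) (p : ℝ) : Prop :=
  (∀ l l' : V → Fin M, (∀ v ∈ T, l v = l' v) → l ∈ E → l' ∈ E) ∧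
  ∀ (W : Finset V), T ⊆ W → ∀ l₀ : V → Fin M, ∀ S : Finset (W → Fin M),
    (∀ f ∈ S, (fun v => by classical exact if h : v ∈ W then f ⟨v, h⟩ else l₀ v) ∈ E) →
    (S.card : ℝ) ≤ p * (M : ℝ) ^ W.card

/-- M1: failure of a strict unique maximum over `B` attained in `B'`. -/
def StM1 : Prop :=
  ∀ (V : Type) (M : ℕ) (B' B : Finset V), 0 < M → B' ⊆ B → B.Nonempty →
    PB M {l : V → Fin M | ¬ ∃ z ∈ B', ∀ z' ∈ B, z' ≠ z → l z' < l z} B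
      (1 - (B'.card : ℝ) / B.card + (B.card : ℝ) ^ 2 / M)

/-- M2: a common good radius. -/
def StM2 : Prop :=
  ∀ (k A s : ℕ) (Q : ℝ) (ι : Type) [Finite ι] (V : ι → ℕ → ℕ),
    (∀ u, Monotone (V u)) → (∀ u n, 1 ≤ V u n) → (∀ u n, V u n ≤ A * (n + 1) ^ k) →
    ∃ K M : ℕ, ∃ δ : ℝ, s ≤ K ∧ 0 < M ∧ 0 ≤ δ ∧
      (∀ u, 1 - (V u (K - s) : ℝ) / V u (K + s) + (V u (K + s) : ℝ) ^ 2 / M ≤ δ) ∧
      Q * δ ^ (2 * k + 1) * (2 * ((K : ℝ) + s) + 1) ^ k ≤ 1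

/-- M3: the local lemma for infinitely many events. -/
def StM3 : Prop :=
  ∀ (V β : Type) (M : ℕ) (E : β → Set (V → Fin M)) (T : β → Finset V) (p : ℝ) (d : ℕ),
    0 < M → 0 ≤ p → (∀ b, PB M (E b) (T b) p) →
    (∀ b, {b' | ¬ Disjoint (T b) (T b')}.Finite ∧ {b' | ¬ Disjoint (T b) (T b')}.ncard ≤ d) →
    4 * p * d ≤ 1 → 2 * p < 1 → ∃ l : V → Fin M, ∀ b, l ∉ E b

/-- M4b: independence. -/
def StM4b : Prop :=
  ∀ (V ι : Type) [DecidableEq V] (M : ℕ) (I : Finset ι) (E : ι → Set (V → Fin M))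
    (T : ι → Finset V) (p : ι → ℝ), 0 < M → (∀ i ∈ I, 0 ≤ p i) → (∀ i ∈ I, PB M (E i) (T i) (p i)) →
    (∀ i ∈ I, ∀ j ∈ I, i ≠ j → Disjoint (T i) (T j)) →
    PB M {l | ∀ i ∈ I, l ∈ E i} (I.biUnion T) (∏ i ∈ I, p i)

/-- M4c: union bound. -/
def StM4c : Prop :=
  ∀ (V ι : Type) (M : ℕ) (I : Finset ι) (E : ι → Set (V → Fin M)) (T : Finset V) (p : ι → ℝ),
    (∀ i ∈ I, PB M (E i) T (p i)) → PB M {l | ∃ i ∈ I, l ∈ E i} T (∑ i ∈ I, p i)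

/-- A: the pieces (`R`-components of `X`) have finite asymptotic dimension, uniformly. -/
def StA : Prop :=
  ∀ (Γ Z : Type) [Group Γ] [MulAction Γ Z] (e : Z → Z → ℕ) (X : Set Z) (U : Finset Z)
    (R A k : ℕ), Geo Γ Z e X U R A k → ∀ ρ : ℕ, ∃ D : ℕ, ∃ κ : Z → ℕ, (∀ x ∈ X, κ x < 2 * k + 1) ∧
      ∀ j, ∀ x y, ReflTransGen (fun a b => a ∈ X ∧ b ∈ X ∧ κ a = j ∧ κ b = j ∧
        ReflTransGen (Step e X R) a b ∧ e a b ≤ ρ) x y → e x y ≤ D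

/-- B: walls of multiplicity `2 k`. -/
def StB : Prop :=
  ∀ (Γ Z : Type) [Group Γ] [MulAction Γ Z] (e : Z → Z → ℕ) (X : Set Z) (U : Finset Z)
    (R A k : ℕ), Geo Γ Z e X U R A k → ∀ L : ℕ, ∃ D : ℕ, ∃ W : Set Z, W ⊆ X ∧ Bd e (X \ W) R D ∧
      ∀ x ∈ X, ∀ F : Finset Z, (∀ y ∈ F, y ∈ W ∧ e x y ≤ L) →
        (∀ y ∈ F, ∀ z ∈ F, y ≠ z → ¬ ReflTransGen (Step e X R) y z) → F.card ≤ 2 * k

/-- K: the key lemma, one `R`-disjoint family and boundedly many `r`-disjoint families. -/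
def StK : Prop :=
  ∀ (Γ Z : Type) [Group Γ] [MulAction Γ Z] (e : Z → Z → ℕ) (X : Set Z) (U : Finset Z)
    (R A k : ℕ), Geo Γ Z e X U R A k → ∀ r : ℕ, ∃ D : ℕ, ∃ S : ℕ → Set Z,
      (∀ x ∈ X, ∃ j < (2 * k + 1) * (2 * k + 1) + 1, x ∈ S j) ∧ Bd e (S 0) R D ∧
      ∀ j < (2 * k + 1) * (2 * k + 1) + 1, 1 ≤ j → Bd e (S j) r D

/-- U: the neighbourhoods of `C` are covered by one `s`-disjoint family and boundedly many
`r`-disjoint families (the number does not depend on `t`, `r`). -/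
def UProp {G : Type} (e : G → G → ℕ) (C : Set G) : Prop :=
  ∀ s : ℕ, ∃ m : ℕ, ∀ r t : ℕ, ∃ D : ℕ, ∃ S : ℕ → Set G,
    (∀ x ∈ Nbd e t C, ∃ j < m + 1, x ∈ S j) ∧ Bd e (S 0) s D ∧
    ∀ j < m + 1, 1 ≤ j → Bd e (S j) r D

/-- T: the tower with one colour of fixed scale. -/
def StT : Prop :=
  ∀ (G : Type) [Group G] (M : Amalg G) (w : G → ℕ), Adm M.letters w →
    UProp (wd M.letters w) {x | x ∈ M.C} →
    (∀ i, ∀ R : ℕ → ℕ, ∃ n D, ∃ A : ℕ → Set G,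
      (∀ x ∈ M.H i, ∃ k < n, x ∈ A k) ∧ ∀ k < n, Bd (wd M.letters w) (A k) (R k) D) →
    ∀ R : ℕ → ℕ, ∃ n D, ∃ A : ℕ → Set G,
      (∀ x, ∃ k < n, x ∈ A k) ∧ ∀ k < n, Bd (wd M.letters w) (A k) (R k) D

/-- Local growth of `C` in `G`: for every finitely generated `F ≤ G` the finite subsets of
`C ∩ g F g⁻¹` have polynomial growth of a degree depending only on `F`. -/
def LocGrowth {G : Type} [Group G] (C : Subgroup G) : Prop :=
  ∀ F : Subgroup G, F.FG → ∃ k : ℕ, ∀ g : G, ∀ S : Set G, S.Finite →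
    (∀ s ∈ S, s ∈ C ∧ g⁻¹ * s * g ∈ F) → ∃ a : ℕ, ∀ n : ℕ,
      {x : G | ∃ l : List G, l.length ≤ n ∧ (∀ s ∈ l, s ∈ S) ∧ l.prod = x}.ncard ≤ a * (n + 1) ^ k

/-- G: local growth gives the geometric data of the neighbourhoods. -/
def StG : Prop :=
  ∀ (G : Type) [Group G] (e : G → G → ℕ) (C : Subgroup G), IsPM e →
    (∀ g x y, e (g * x) (g * y) = e x y) → (∀ n : ℕ, {g : G | e 1 g ≤ n}.Finite) →
    LocGrowth C → ∀ R : ℕ, ∃ k : ℕ, ∀ t : ℕ, ∃ (U : Finset G) (A : ℕ),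
      Geo C G e (Nbd e t {x | x ∈ C}) U R A k

end Pool.Agent.Lib.MP_1df68a_gt.PG
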