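import Pool.Agent.Lib.MP_1df68a_gt.PG.Stmts45

set_option autoImplicit false

/-! The tower with one colour of fixed scale. -/

namespace Pool.Agent.Lib.MP_1df68a_gt.PG

open Relation

/-- Gluing of two families at one fixed scale `s`: `A` (bounded by `D`) outside the region `Ω`,
`S` (bounded by `DS`) inside and near it. -/
lemma glue {X : Type*} {d : X → X → ℕ} (hd : IsPM d) {A S Ω : Set X} {s D DS : ℕ}
    (hA : Bd d A s D) (hS : Bd d S s DS) :
    Bd d {z | (z ∈ S ∧ z ∈ Ω) ∨
      (z ∈ A ∧ ¬ ∃ z' ω, ReflTransGen (Step d A s) z z' ∧ ω ∈ Ω ∧ d z' ω ≤ s) ∨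
      (z ∈ A ∧ (∃ z' ω, ReflTransGen (Step d A s) z z' ∧ ω ∈ Ω ∧ d z' ω ≤ s) ∧ z ∈ S)} s
      (D + DS) := by
  set T : X → Prop := fun z => ∃ z' ω, ReflTransGen (Step d A s) z z' ∧ ω ∈ Ω ∧ d z' ω ≤ s with hT
  set E : Set X := {z | (z ∈ S ∧ z ∈ Ω) ∨ (z ∈ A ∧ ¬ T z) ∨ (z ∈ A ∧ T z ∧ z ∈ S)} with hE
  have hadj : ∀ a b, a ∈ A → b ∈ A → d a b ≤ s → T b → T a := by
    rintro a b ha hb hab ⟨z', ω, h1, h2, h3⟩
    exact ⟨z', ω, ReflTransGen.head ⟨ha, hb, hab⟩ h1, h2, h3⟩
  have hII : ∀ a b, Step d E s a b → (a ∈ A ∧ ¬ T a) → (b ∈ A ∧ ¬ T b) := by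
    rintro a b ⟨-, hb, hab⟩ ⟨haA, haT⟩
    rcases hb with ⟨-, hbΩ⟩ | h | ⟨hbA, hbT, -⟩
    · exact absurd ⟨a, b, ReflTransGen.refl, hbΩ, hab⟩ haT
    · exact h
    · exact absurd (hadj a b haA hbA hab hbT) haT
  have hstep : ∀ a b, Step d E s a b → Step d E s b a := by
    rintro a b ⟨h1, h2, h3⟩
    exact ⟨h2, h1, by rw [hd.symm]; exact h3⟩
  have hI : ∀ a b, Step d E s a b → ¬ (a ∈ A ∧ ¬ T a) → ¬ (b ∈ A ∧ ¬ T b) :=
    fun a b h ha hb => ha (hII b a (hstep a b h) hb)
  have hInS : ∀ a ∈ E, ¬ (a ∈ A ∧ ¬ T a) → a ∈ S := by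
    rintro a (⟨h, -⟩ | h | ⟨-, -, h⟩) hn
    · exact h
    · exact absurd h hn
    · exact h
  intro x y hxy
  by_cases hx : x ∈ A ∧ ¬ T x
  · have key : ∀ y, ReflTransGen (Step d E s) x y →
        ReflTransGen (Step d A s) x y ∧ (y ∈ A ∧ ¬ T y) := by
      intro y hy
      induction hy with
      | refl => exact ⟨ReflTransGen.refl, hx⟩
      | tail _ hbc ih =>
        have := hII _ _ hbc ih.2
        exact ⟨ih.1.tail ⟨ih.2.1, this.1, hbc.2.2⟩, this⟩
    exact (hA _ _ (key y hxy).1).trans (by omega)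
  · have key : ∀ y, ReflTransGen (Step d E s) x y →
        ReflTransGen (Step d S s) x y ∧ ¬ (y ∈ A ∧ ¬ T y) := by
      intro y hy
      induction hy with
      | refl => exact ⟨ReflTransGen.refl, hx⟩
      | tail _ hbc ih =>
        have := hI _ _ hbc ih.2
        exact ⟨ih.1.tail ⟨hInS _ hbc.1 ih.2, hInS _ hbc.2.1 this, hbc.2.2⟩, this⟩
    exact (hS _ _ (key y hxy).1).trans (by omega)

section

variable {G : Type} [Group G] (M : Amalg G) {w : G → ℕ}

theorem tower1 (hw : Adm M.letters w) (m n s ρ σ : ℕ) (hs : s ≤ ρ) (R' : ℕ → ℕ)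
    (hR' : ∀ k < n, R' k ≤ σ)
    (hC : ∀ r t, ∃ D, ∃ S : ℕ → Set G,
      (∀ x ∈ Nbd (wd M.letters w) t {x | x ∈ M.C}, ∃ k < m + 1, x ∈ S k) ∧
      Bd (wd M.letters w) (S 0) s D ∧
      ∀ k < m + 1, 1 ≤ k → Bd (wd M.letters w) (S k) r D)
    (P : Bool → ℕ → Set G) (DP : ℕ)
    (hP : ∀ i, ∀ x ∈ M.near w ρ i, ∃ k < n, x ∈ P i k)
    (hPB : ∀ i, ∀ k < n, Bd (wd M.letters w) (P i k) (R' k) DP) :
    ∀ l, ∃ D, ∃ A B : Bool → ℕ → Set G,
      (∀ i, ∀ y ∈ M.Y l i, (∃ k < m + 1, y ∈ A i k) ∨ (∃ k < n, y ∈ B i k)) ∧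
      (∀ i, Bd (wd M.letters w) (A i 0) s D) ∧
      (∀ i, ∀ k < m + 1, 1 ≤ k → Bd (wd M.letters w) (A i k) ρ D) ∧
      (∀ i, ∀ k < n, Bd (wd M.letters w) (B i k) (R' k) D) := by
  intro l
  have hd := hw.isPM
  induction l with
  | zero =>
    refine ⟨DP, fun _ _ => ∅, P, ?_, ?_, ?_, hPB⟩
    · intro i y hy
      exact Or.inr (hP i y (M.H_near hw ρ hy))
    · intro i
      exact bd_empty hd _ _
    · intro i k _ _
      exact bd_empty hd _ _
  | succ l ih =>
    obtain ⟨D, A, B, hcov, hA0, hA, hB⟩ := ih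
    obtain ⟨DS, S, hS, hS0, hSB⟩ := hC (D + 2 * ρ) (ρ + σ + D + s)
    have hnear_mono : ∀ i, M.near w ρ i ⊆ M.near w (ρ + σ) i := by
      rintro i x ⟨y, hy, hxy⟩
      exact ⟨y, hy, by omega⟩
    set Ω : Set G := Nbd (wd M.letters w) (ρ + σ) {x | x ∈ M.C} with hΩ
    let E : Bool → ℕ → Set G := fun i k => if k = 0 then
        {z | (z ∈ S 0 ∧ z ∈ Ω) ∨
          (z ∈ A (!i) 0 ∧ ¬ ∃ z' ω, ReflTransGen (Step (wd M.letters w) (A (!i) 0) s) z z' ∧
            ω ∈ Ω ∧ wd M.letters w z' ω ≤ s) ∨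
          (z ∈ A (!i) 0 ∧ (∃ z' ω, ReflTransGen (Step (wd M.letters w) (A (!i) 0) s) z z' ∧
            ω ∈ Ω ∧ wd M.letters w z' ω ≤ s) ∧ z ∈ S 0)}
      else A (!i) k ∪ S k
    have hE0 : ∀ i, Bd (wd M.letters w) (E i 0) s (D + DS) := fun i => by
      have h0 : E i 0 = {z | (z ∈ S 0 ∧ z ∈ Ω) ∨
          (z ∈ A (!i) 0 ∧ ¬ ∃ z' ω, ReflTransGen (Step (wd M.letters w) (A (!i) 0) s) z z' ∧
            ω ∈ Ω ∧ wd M.letters w z' ω ≤ s) ∨
          (z ∈ A (!i) 0 ∧ (∃ z' ω, ReflTransGen (Step (wd M.letters w) (A (!i) 0) s) z z' ∧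
            ω ∈ Ω ∧ wd M.letters w z' ω ≤ s) ∧ z ∈ S 0)} := if_pos rfl
      rw [h0]
      exact glue hd (hA0 (!i)) hS0
    have hEk : ∀ i, ∀ k < m + 1, 1 ≤ k → Bd (wd M.letters w) (E i k) ρ (2 * D + 2 * ρ + DS) := by
      intro i k hk hk1
      have h0 : E i k = A (!i) k ∪ S k := if_neg (by omega)
      rw [h0]
      exact Bd.union hd (hA (!i) k hk hk1) (hSB k hk hk1) le_rfl
    have hlab : ∀ i k, ∀ s' ≤ ρ, ∀ x ∈ {y | y ∉ M.near w ρ i ∧ (M.br i y)⁻¹ * y ∈ E i k},
        ∀ y ∈ {y | y ∉ M.near w ρ i ∧ (M.br i y)⁻¹ * y ∈ E i k}, wd M.letters w x y ≤ s' →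
        M.br i x = M.br i y := by
      rintro i k s' hs' x ⟨hxρ, -⟩ y - hxy
      by_contra hne
      have hxH : x ∉ M.H i := fun h => hxρ (M.H_near hw ρ h)
      obtain ⟨z, hz, hxz⟩ := M.sep_vertex hw hxH hne
      exact hxρ ⟨z, hz, by omega⟩
    have htr : ∀ i k s' D', s' ≤ ρ → Bd (wd M.letters w) (E i k) s' D' →
        Bd (wd M.letters w) {y | y ∉ M.near w ρ i ∧ (M.br i y)⁻¹ * y ∈ E i k} s' D' := by
      intro i k s' D' hs' hB'
      refine Bd.of_label (M.br i) (hlab i k s' hs') ?_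
      intro h
      refine (hB'.translate wd_inv h).mono ?_ le_rfl le_rfl
      rintro x ⟨⟨-, hx⟩, hxh⟩
      have hxh' : M.br i x = h := hxh
      rw [hxh'] at hx
      exact hx
    refine ⟨2 * D + 2 * ρ + DS + DP,
      fun i k => {y | y ∉ M.near w ρ i ∧ (M.br i y)⁻¹ * y ∈ E i k},
      fun i k => {y | (y ∈ M.near w ρ i ∧ y ∈ P i k) ∨
        (y ∉ M.near w (ρ + σ) i ∧ (M.br i y)⁻¹ * y ∈ B (!i) k)}, ?_, ?_, ?_, ?_⟩
    · intro i y hy
      by_cases hyρ : y ∈ M.near w ρ i
      · obtain ⟨k, hk, hyk⟩ := hP i y hyρ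
        exact Or.inr ⟨k, hk, Or.inl ⟨hyρ, hyk⟩⟩
      have hyH : y ∉ M.H i := fun h => hyρ (M.H_near hw ρ h)
      obtain ⟨h1, h2, h3⟩ := M.br_spec hyH
      by_cases hyσ : y ∈ M.near w (ρ + σ) i
      · left
        obtain ⟨h', hh', hyh'⟩ := hyσ
        have hnot : (M.br i y)⁻¹ * h' ∉ M.side (!i) := fun hh =>
          M.side_notMem hh (mul_mem (inv_mem h1) hh')
        obtain ⟨c, hc, hle⟩ := M.sep hw h2 hnot
        have hΩy : (M.br i y)⁻¹ * y ∈ Ω := by
          refine ⟨_, hc, ?_⟩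
          rw [wd_inv]
          omega
        have : (M.br i y)⁻¹ * y ∈ Nbd (wd M.letters w) (ρ + σ + D + s) {x | x ∈ M.C} := by
          obtain ⟨c', hc', hle'⟩ := hΩy
          exact ⟨c', hc', by omega⟩
        obtain ⟨k, hk, hyk⟩ := hS _ this
        refine ⟨k, hk, hyρ, ?_⟩
        rcases Nat.eq_zero_or_pos k with h0 | h0
        · subst h0
          show _ ∈ E i 0
          exact Or.inl ⟨hyk, hΩy⟩
        · have h0' : E i k = A (!i) k ∪ S k := if_neg (by omega)
          rw [h0']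
          exact Or.inr hyk
      · have hy' : (M.br i y)⁻¹ * y ∈ M.Y l (!i) := by
          rcases hy with h | h
          · exact absurd h hyH
          · exact h
        rcases hcov (!i) _ hy' with ⟨k, hk, hyk⟩ | ⟨k, hk, hyk⟩
        · left
          rcases Nat.eq_zero_or_pos k with h0 | h0
          · subst h0
            by_cases hT : ∃ z' ω, ReflTransGen (Step (wd M.letters w) (A (!i) 0) s)
                ((M.br i y)⁻¹ * y) z' ∧ ω ∈ Ω ∧ wd M.letters w z' ω ≤ s
            · have hN : (M.br i y)⁻¹ * y ∈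
                  Nbd (wd M.letters w) (ρ + σ + D + s) {x | x ∈ M.C} := by
                obtain ⟨z', ω, hz', ⟨c, hc, hcω⟩, hω⟩ := hT
                refine ⟨c, hc, ?_⟩
                have e1 := hA0 (!i) _ _ hz'
                have e2 := hd.tri ((M.br i y)⁻¹ * y) z' c
                have e3 := hd.tri z' ω c
                omega
              obtain ⟨k', hk', hyk'⟩ := hS _ hN
              refine ⟨k', hk', hyρ, ?_⟩
              rcases Nat.eq_zero_or_pos k' with h0 | h0
              · subst h0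
                exact Or.inr (Or.inr ⟨hyk, hT, hyk'⟩)
              · have h0' : E i k' = A (!i) k' ∪ S k' := if_neg (by omega)
                rw [h0']
                exact Or.inr hyk'
            · exact ⟨0, hk, hyρ, Or.inr (Or.inl ⟨hyk, hT⟩)⟩
          · refine ⟨k, hk, hyρ, ?_⟩
            have h0' : E i k = A (!i) k ∪ S k := if_neg (by omega)
            rw [h0']
            exact Or.inl hyk
        · exact Or.inr ⟨k, hk, Or.inr ⟨hyσ, hyk⟩⟩
    · intro i
      exact (htr i 0 s _ hs (hE0 i)).mono subset_rfl le_rfl (by omega)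
    · intro i k hk hk1
      exact (htr i k ρ _ le_rfl (hEk i k hk hk1)).mono subset_rfl le_rfl (by omega)
    · intro i k hk
      classical
      refine Bd.of_label (fun y => if y ∈ M.near w ρ i then none else some (M.br i y)) ?_ ?_
      · intro x hx y hy hxy
        have hxyσ : wd M.letters w x y ≤ σ := hxy.trans (hR' k hk)
        have hfar : ∀ x y, wd M.letters w x y ≤ σ → x ∈ M.near w ρ i → y ∈ M.near w (ρ + σ) i := by
          rintro x y hxy ⟨z, hz, hxz⟩
          refine ⟨z, hz, ?_⟩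
          have h1 := hd.tri y x z
          have h2 := hd.symm y x
          omega
        by_cases hxρ : x ∈ M.near w ρ i
        · have hyρ : y ∈ M.near w ρ i := by
            rcases hy with ⟨h, _⟩ | ⟨h, _⟩
            · exact h
            · exact absurd (hfar x y hxyσ hxρ) h
          simp [hxρ, hyρ]
        · have hxσ : x ∉ M.near w (ρ + σ) i := by
            rcases hx with ⟨h, _⟩ | ⟨h, _⟩
            · exact absurd h hxρ
            · exact h
          have hyρ : y ∉ M.near w ρ i := by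
            intro h
            exact hxσ (hfar y x (by rw [hd.symm]; exact hxyσ) h)
          simp only [hxρ, hyρ, if_false]
          congr 1
          by_contra hne
          have hxH : x ∉ M.H i := fun h => hxρ (M.H_near hw ρ h)
          obtain ⟨z, hz, hxz⟩ := M.sep_vertex hw hxH hne
          exact hxσ ⟨z, hz, by omega⟩
      · intro o
        cases o with
        | none =>
          refine (hPB i k hk).mono ?_ le_rfl (by omega)
          rintro x ⟨hx, hxo⟩
          have hxρ : x ∈ M.near w ρ i := by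
            by_contra h
            simp [h] at hxo
          rcases hx with ⟨_, h⟩ | ⟨h, _⟩
          · exact h
          · exact absurd (hnear_mono i hxρ) h
        | some h =>
          refine ((hB (!i) k hk).translate wd_inv h).mono ?_ le_rfl (by omega)
          rintro x ⟨hx, hxo⟩
          have hxρ : x ∉ M.near w ρ i := by
            intro h
            simp [h] at hxo
          have hbr : M.br i x = h := by
            simpa [hxρ] using hxo
          rcases hx with ⟨h, _⟩ | ⟨_, h⟩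
          · exact absurd h hxρ
          · rw [hbr] at h
            exact h

/-- The palette lemma: the number of colours does not depend on the depth `l`. -/
theorem palette1 (hw : Adm M.letters w) (hU : UProp (wd M.letters w) {x | x ∈ M.C})
    (hH : ∀ i, ∀ R : ℕ → ℕ, ∃ n D, ∃ A : ℕ → Set G,
      (∀ x ∈ M.H i, ∃ k < n, x ∈ A k) ∧ ∀ k < n, Bd (wd M.letters w) (A k) (R k) D)
    (R : ℕ → ℕ) (hR : Monotone R) :
    ∃ N, ∀ l, ∃ D, ∃ E : Bool → ℕ → Set G,
      (∀ i, ∀ y ∈ M.Y l i, ∃ k < N, y ∈ E i k) ∧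
      (∀ i, ∀ k < N, Bd (wd M.letters w) (E i k) (R k) D) := by
  have hd := hw.isPM
  obtain ⟨m, hC⟩ := hU (R 0)
  choose n D A hA hAB using fun i => hH i (fun k => R (m + 1 + k) + 2 * R (m + 1))
  set n' := n false + n true with hn'
  have hni : ∀ i, n i ≤ n' := by intro i; cases i <;> omega
  refine ⟨m + 1 + n', fun l => ?_⟩
  obtain ⟨D', A', B', hcov, hA0', hA', hB'⟩ := tower1 M hw m n' (R 0) (R (m + 1))
    (R (m + 1 + n')) (hR (Nat.zero_le _)) (fun k => R (m + 1 + k))
    (fun k hk => hR (by omega)) hC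
    (fun i k => if k < n i then Nbd (wd M.letters w) (R (m + 1)) (A i k) else ∅)
    (D false + D true + 2 * R (m + 1))
    (by
      rintro i x ⟨y, hy, hxy⟩
      obtain ⟨k, hk, hyk⟩ := hA i y hy
      refine ⟨k, hk.trans_le (hni i), ?_⟩
      simp only [hk, if_true]
      exact ⟨y, hyk, hxy⟩)
    (by
      intro i k _
      by_cases hk : k < n i
      · simp only [hk, if_true]
        exact ((hAB i k hk).thicken hd).mono subset_rfl le_rfl (by cases i <;> omega)
      · simp only [hk, if_false]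
        exact bd_empty hd _ _) l
  refine ⟨D', fun i k => if k < m + 1 then A' i k else B' i (k - (m + 1)), ?_, ?_⟩
  · intro i y hy
    rcases hcov i y hy with ⟨k, hk, hyk⟩ | ⟨k, hk, hyk⟩
    · exact ⟨k, by omega, by simpa [hk] using hyk⟩
    · refine ⟨m + 1 + k, by omega, ?_⟩
      have : ¬ (m + 1 + k < m + 1) := by omega
      simpa [this] using hyk
  · intro i k hk
    by_cases hkm : k < m + 1
    · simp only [hkm, if_true]
      rcases Nat.eq_zero_or_pos k with h0 | h0
      · subst h0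
        exact hA0' i
      · exact (hA' i k hkm h0).mono subset_rfl (hR (by omega)) le_rfl
    · simp only [hkm, if_false]
      have := hB' i (k - (m + 1)) (by omega)
      have e : m + 1 + (k - (m + 1)) = k := by omega
      simpa [e] using this

theorem main_cover_mono1 (hw : Adm M.letters w)
    (hU : UProp (wd M.letters w) {x | x ∈ M.C})
    (hH : ∀ i, ∀ R : ℕ → ℕ, ∃ n D, ∃ A : ℕ → Set G,
      (∀ x ∈ M.H i, ∃ k < n, x ∈ A k) ∧ ∀ k < n, Bd (wd M.letters w) (A k) (R k) D)
    (R : ℕ → ℕ) (hR : Monotone R) :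
    ∃ n D, ∃ A : ℕ → Set G,
      (∀ x, ∃ k < n, x ∈ A k) ∧ ∀ k < n, Bd (wd M.letters w) (A k) (R k) D := by
  have hd := hw.isPM
  obtain ⟨N₁, h₁⟩ := palette1 M hw hU hH R hR
  obtain ⟨N₂, h₂⟩ := palette1 M hw hU hH (fun k => R (N₁ + k)) (fun a b hab => hR (by omega))
  set L := R (N₁ + N₂) + 1 with hL
  have hLpos : 0 < L := by omega
  obtain ⟨D₁, E₁, hE₁, hB₁⟩ := h₁ (2 * L)
  obtain ⟨D₂, E₂, hE₂, hB₂⟩ := h₂ (2 * L)
  let b : G → ℕ := fun x => M.depth x / L
  let mm : ℕ → ℕ := fun b => (b - 1) * L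
  let κ : G → G := fun x => M.pfx (mm (b x)) false x
  have hb1 : ∀ x, b x * L ≤ M.depth x := fun x => Nat.div_mul_le_self _ _
  have hb2 : ∀ x, M.depth x < (b x + 1) * L := fun x => by
    have := Nat.lt_mul_div_succ (M.depth x) hLpos
    rw [mul_comm] at this
    exact this
  have hmm : ∀ x, mm (b x) ≤ M.depth x := fun x =>
    (Nat.mul_le_mul_right L (Nat.sub_le (b x) 1)).trans (hb1 x)
  have hshallow : ∀ x, ∀ k' < mm (b x), x ∉ M.Y k' false := by
    intro x k' hk' hc
    have := M.depth_le hc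
    have := hmm x
    omega
  have hκY : ∀ x, (κ x)⁻¹ * x ∈ M.Y (2 * L) (Amalg.ty (mm (b x)) false) := by
    intro x
    apply M.pfx_Y (mm (b x)) (2 * L) false x (hshallow x)
    refine M.Y_mono' ?_ false (M.depth_spec x)
    have h1 := hb2 x
    rcases Nat.eq_zero_or_pos (b x) with h0 | h0
    · rw [h0] at h1
      simp only [zero_add, one_mul] at h1
      omega
    · have : (b x + 1) * L = mm (b x) + 2 * L := by
        show (b x + 1) * L = (b x - 1) * L + 2 * L
        rw [← add_mul]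
        congr 1
        omega
      omega
  have hlabel : ∀ x y, b x % 2 = b y % 2 → wd M.letters w x y < L → (b x, κ x) = (b y, κ y) := by
    intro x y hpar hxy
    have hl1 := M.depth_lipschitz hw x y
    have hl2 := M.depth_lipschitz hw y x
    rw [hd.symm y x] at hl2
    have hbb : b x = b y := by
      have h1 := hb1 x
      have h2 := hb2 x
      have h3 := hb1 y
      have h4 := hb2 y
      have h5 : b x * L < (b y + 2) * L := by
        have : (b y + 2) * L = (b y + 1) * L + L := by ring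
        omega
      have h6 : b y * L < (b x + 2) * L := by
        have : (b x + 2) * L = (b x + 1) * L + L := by ring
        omega
      have h7 := Nat.lt_of_mul_lt_mul_right h5
      have h8 := Nat.lt_of_mul_lt_mul_right h6
      omega
    have hκ : κ x = κ y := by
      show M.pfx (mm (b x)) false x = M.pfx (mm (b y)) false y
      rw [← hbb]
      rcases Nat.eq_zero_or_pos (mm (b x)) with h0 | h0
      · rw [h0]; rfl
      · obtain ⟨k, hk⟩ := Nat.exists_eq_succ_of_ne_zero h0.ne'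
        have hsh := hshallow x
        have hk' : mm (b x) = k + 1 := hk
        rw [hk'] at hsh ⊢
        by_cases hy : (M.pfx (k + 1) false x)⁻¹ * y ∈ M.side (Amalg.ty (k + 1) false)
        · exact (M.pfx_congr k false x hsh y hy).symm
        · exfalso
          obtain ⟨c, hc, hle⟩ := M.sep hw (M.pfx_self k false x hsh) hy
          have hcY := M.depth_le (M.pfx_gate k false x hsh c hc)
          have hl3 := M.depth_lipschitz hw c x
          rw [hd.symm c x] at hl3
          have hbx := hb1 x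
          have hbpos : 2 ≤ b x := by
            by_contra hlt
            have : b x - 1 = 0 := by omega
            have : mm (b x) = 0 := by
              show (b x - 1) * L = 0
              rw [this, zero_mul]
            omega
          have : b x * L = mm (b x) + L := by
            show b x * L = (b x - 1) * L + L
            have : b x = (b x - 1) + 1 := by omega
            conv_lhs => rw [this]
            ring
          omega
    rw [hbb, hκ]
  refine ⟨N₁ + N₂, D₁ + D₂, fun k => if k < N₁ then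
      {x | b x % 2 = 0 ∧ (κ x)⁻¹ * x ∈ E₁ (Amalg.ty (mm (b x)) false) k}
      else {x | b x % 2 = 1 ∧ (κ x)⁻¹ * x ∈ E₂ (Amalg.ty (mm (b x)) false) (k - N₁)}, ?_, ?_⟩
  · intro x
    rcases Nat.mod_two_eq_zero_or_one (b x) with h | h
    · obtain ⟨k, hk, hx⟩ := hE₁ _ _ (hκY x)
      exact ⟨k, by omega, by simp only [hk, if_true]; exact ⟨h, hx⟩⟩
    · obtain ⟨k, hk, hx⟩ := hE₂ _ _ (hκY x)
      refine ⟨N₁ + k, by omega, ?_⟩
      have : ¬ (N₁ + k < N₁) := by omega
      simp only [this, if_false]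
      refine ⟨h, ?_⟩
      simpa using hx
  · intro k hk
    have hRk : R k ≤ R (N₁ + N₂) := hR hk.le
    by_cases hk1 : k < N₁
    · simp only [hk1, if_true]
      refine Bd.of_label (fun x => (b x, κ x)) ?_ ?_
      · rintro x ⟨hx, -⟩ y ⟨hy, -⟩ hxy
        exact hlabel x y (by omega) (by omega)
      · rintro ⟨b0, p⟩
        refine ((hB₁ (Amalg.ty (mm b0) false) k hk1).translate wd_inv p).mono ?_ le_rfl (by omega)
        rintro x ⟨⟨-, hx⟩, hxl⟩
        have h1 : b x = b0 := congrArg Prod.fst hxl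
        have h2 : κ x = p := congrArg Prod.snd hxl
        rw [h1, h2] at hx
        exact hx
    · simp only [hk1, if_false]
      refine Bd.of_label (fun x => (b x, κ x)) ?_ ?_
      · rintro x ⟨hx, -⟩ y ⟨hy, -⟩ hxy
        exact hlabel x y (by omega) (by omega)
      · rintro ⟨b0, p⟩
        have hB := hB₂ (Amalg.ty (mm b0) false) (k - N₁) (by omega)
        have e : N₁ + (k - N₁) = k := by omega
        simp only [e] at hB
        refine (hB.translate wd_inv p).mono ?_ le_rfl (by omega)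
        rintro x ⟨⟨-, hx⟩, hxl⟩
        have h1 : b x = b0 := congrArg Prod.fst hxl
        have h2 : κ x = p := congrArg Prod.snd hxl
        rw [h1, h2] at hx
        exact hx


end

theorem stT : StT := by
  intro G _ M w hw hU hH R
  obtain ⟨n, D, A, h1, h2⟩ := main_cover_mono1 M hw hU hH
    (fun k => ∑ j ∈ Finset.range (k + 1), R j) (by
      intro a b hab
      exact Finset.sum_le_sum_of_subset (Finset.range_mono (by omega)))
  refine ⟨n, D, A, h1, fun k hk => (h2 k hk).mono subset_rfl ?_ le_rfl⟩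
  exact Finset.single_le_sum (f := R) (fun _ _ => Nat.zero_le _) (Finset.self_mem_range_succ k)

end Pool.Agent.Lib.MP_1df68a_gt.PG
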